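import Mathlib
import Pool.Agent.H932R2.Semi

set_option autoImplicit false

/-!
# Fat points in affine space of any dimension: ranks and compressions
-/

namespace Pool.Agent.H932R5

open MvPolynomial

variable {K : Type*} [Field K] {E n : ℕ}

/-- The ideal of the point `P` of affine space. -/
noncomputable def pt (P : Fin (E + 1) → K) : Ideal (MvPolynomial (Fin (E + 1)) K) :=
  Ideal.span (Set.range fun j => X j - C (P j))

/-- The ideal of polynomials vanishing to order `w i` at `x i` for all `i`. -/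
noncomputable def Z (w : Fin n → ℕ) (x : Fin n → Fin (E + 1) → K) :
    Ideal (MvPolynomial (Fin (E + 1)) K) :=
  ⨅ i, (pt (x i)) ^ (w i)

theorem mem_Z {w : Fin n → ℕ} {x : Fin n → Fin (E + 1) → K} {f : MvPolynomial (Fin (E + 1)) K} :
    f ∈ Z w x ↔ ∀ i, f ∈ (pt (x i)) ^ (w i) := by
  unfold Z
  rw [Ideal.mem_iInf]

/-- Span of a set of monomials. -/
noncomputable def mspan (K : Type*) [Field K] (M : Set (Fin (E + 1) →₀ ℕ)) :
    Submodule K (MvPolynomial (Fin (E + 1)) K) :=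
  Submodule.span K ((fun α => monomial α (1 : K)) '' M)

theorem mspan_mono {M M' : Set (Fin (E + 1) →₀ ℕ)} (h : M ⊆ M') : mspan K M ≤ mspan K M' :=
  Submodule.span_mono (Set.image_mono h)

theorem mem_mspan {M : Set (Fin (E + 1) →₀ ℕ)} {f : MvPolynomial (Fin (E + 1)) K} :
    f ∈ mspan K M ↔ ∀ α, coeff α f ≠ 0 → α ∈ M := by
  unfold mspan
  rw [← restrictSupport_eq_span, mem_restrictSupport_iff]
  constructor
  · intro h α hα
    exact h (mem_support_iff.2 hα)
  · intro h α hα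
    exact h α (mem_support_iff.1 hα)

/-- For some points `x`, the span of the monomials in `M` has at least `N` elements linearly
independent modulo `Z w x`. -/
def Rk (K : Type*) [Field K] (w : Fin n → ℕ) (M : Set (Fin (E + 1) →₀ ℕ)) (N : ℕ) : Prop :=
  ∃ x : Fin n → Fin (E + 1) → K, ∃ v : Fin N → MvPolynomial (Fin (E + 1)) K,
    (∀ i, v i ∈ mspan K M) ∧ ∀ c : Fin N → K, ∑ i, c i • v i ∈ Z w x → ∀ i, c i = 0

theorem li_mk_iff {R : Type*} [CommRing R] [Algebra K R] {N : ℕ} (I : Ideal R) (v : Fin N → R) :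
    LinearIndependent K (fun i => Ideal.Quotient.mkₐ K I (v i)) ↔
      ∀ c : Fin N → K, ∑ i, c i • v i ∈ I → ∀ i, c i = 0 := by
  rw [Fintype.linearIndependent_iff]
  refine forall_congr' fun c => ?_
  have : ∑ i, c i • (Ideal.Quotient.mkₐ K I) (v i) = Ideal.Quotient.mkₐ K I (∑ i, c i • v i) := by
    rw [map_sum]
    exact Finset.sum_congr rfl fun i _ => (map_smul _ _ _).symm
  rw [this, Ideal.Quotient.mkₐ_eq_mk, Ideal.Quotient.eq_zero_iff_mem]

theorem Rk.mono {w : Fin n → ℕ} {M M' : Set (Fin (E + 1) →₀ ℕ)} {N : ℕ}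
    (h : M ⊆ M') (hR : Rk K w M N) : Rk K w M' N := by
  obtain ⟨x, v, hv, hli⟩ := hR
  exact ⟨x, v, fun i => mspan_mono h (hv i), hli⟩

/-- Transfer of ranks along a one-parameter family of substitutions. -/
theorem Rk.transfer [Infinite K] {w : Fin n → ℕ} {M M' : Set (Fin (E + 1) →₀ ℕ)}
    {N : ℕ} (B : ℕ) (ψ : K → MvPolynomial (Fin (E + 1)) K →ₐ[K] MvPolynomial (Fin (E + 1)) K)
    (hI : ∀ t : K, t ≠ 0 → ∀ x' : Fin n → Fin (E + 1) → K, ∃ x : Fin n → Fin (E + 1) → K,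
      Z w x ≤ (Z w x').comap (ψ t))
    (hM : ∀ p ∈ M', ∃ u : ℕ → MvPolynomial (Fin (E + 1)) K, u 0 = monomial p (1 : K) ∧
      ∀ t : K, t ≠ 0 → ∑ k ∈ Finset.range (B + 1), t ^ k • u k ∈
        (mspan K M).map (ψ t).toLinearMap)
    (hR : Rk K w M' N) : Rk K w M N := by
  classical
  obtain ⟨x', v, hv, hli⟩ := hR
  have hgood : ∀ f ∈ mspan K M', ∃ u : ℕ → MvPolynomial (Fin (E + 1)) K, u 0 = f ∧
      ∀ t : K, t ≠ 0 → ∑ k ∈ Finset.range (B + 1), t ^ k • u k ∈
        (mspan K M).map (ψ t).toLinearMap := by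
    intro f hf
    refine Submodule.span_induction ?_ ?_ ?_ ?_ hf
    · rintro _ ⟨p, hp, rfl⟩
      exact hM p hp
    · exact ⟨fun _ => 0, rfl, fun t _ => by simp⟩
    · rintro a b _ _ ⟨wa, ha0, ha⟩ ⟨wb, hb0, hb⟩
      refine ⟨fun k => wa k + wb k, by simp only [ha0, hb0], fun t ht => ?_⟩
      have := Submodule.add_mem _ (ha t ht) (hb t ht)
      rw [← Finset.sum_add_distrib] at this
      simpa only [smul_add] using this
    · rintro c a _ ⟨wa, ha0, ha⟩
      refine ⟨fun k => c • wa k, by simp only [ha0], fun t ht => ?_⟩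
      have := Submodule.smul_mem _ c (ha t ht)
      rw [Finset.smul_sum] at this
      simpa only [smul_comm c] using this
  choose u hu0 hu using fun i => hgood (v i) (hv i)
  obtain ⟨W, hW⟩ : ∃ W : Fin N → ℕ → MvPolynomial (Fin (E + 1)) K ⧸ Z w x',
      ∀ i k, W i k = Ideal.Quotient.mkₐ K (Z w x') (u i k) := ⟨_, fun _ _ => rfl⟩
  have h0 : LinearIndependent K (fun j => W j 0) := by
    simp only [hW, hu0]
    exact (li_mk_iff _ _).2 hli
  obtain ⟨t, ht, hli'⟩ := H932R2.exists_ne_zero_li B W h0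
  have hli'' : ∀ c : Fin N → K, ∑ i, c i • (∑ k ∈ Finset.range (B + 1), t ^ k • u i k) ∈
      Z w x' → ∀ i, c i = 0 := by
    intro c hc
    refine Fintype.linearIndependent_iff.1 hli' c ?_
    have h1 : Ideal.Quotient.mkₐ K (Z w x')
        (∑ i, c i • (∑ k ∈ Finset.range (B + 1), t ^ k • u i k)) = 0 := by
      rw [Ideal.Quotient.mkₐ_eq_mk, Ideal.Quotient.eq_zero_iff_mem]
      exact hc
    rw [← h1, map_sum]
    refine Finset.sum_congr rfl fun i _ => ?_
    rw [map_smul, map_sum]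
    congr 1
    exact Finset.sum_congr rfl fun k _ => by rw [hW, map_smul]
  choose u' hu' hu'' using fun i => Submodule.mem_map.1 (hu i t ht)
  obtain ⟨x, hle⟩ := hI t ht x'
  refine ⟨x, u', hu', fun c hc => hli'' c ?_⟩
  have h1 := hle hc
  rw [Ideal.mem_comap, map_sum] at h1
  convert h1 using 2 with i
  rw [map_smul, ← hu'' i]
  rfl

/-- The substitution `x_j ↦ x_0 ^ ρ + t x_j`. -/
noncomputable def sub (ρ : ℕ) (j : Fin (E + 1)) (t : K) :
    MvPolynomial (Fin (E + 1)) K →ₐ[K] MvPolynomial (Fin (E + 1)) K :=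
  aeval (fun i => if i = j then X 0 ^ ρ + C t * X j else X i)

theorem sub_X_self (ρ : ℕ) (j : Fin (E + 1)) (t : K) : sub ρ j t (X j) = X 0 ^ ρ + C t * X j := by
  simp [sub]

theorem sub_X_ne (ρ : ℕ) {i j : Fin (E + 1)} (t : K) (h : i ≠ j) : sub ρ j t (X i) = X i := by
  simp [sub, h]

theorem sub_C (ρ : ℕ) (j : Fin (E + 1)) (t a : K) : sub ρ j t (C a) = C a :=
  (sub ρ j t).commutes a

theorem pt_sub (ρ : ℕ) {j : Fin (E + 1)} (t : K) (P : Fin (E + 1) → K) :
    pt (Function.update P j (P 0 ^ ρ + t * P j)) ≤ (pt P).comap (sub ρ j t) := by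
  unfold pt
  rw [← Ideal.map_le_iff_le_comap, Ideal.map_span, Ideal.span_le]
  rintro _ ⟨_, ⟨i, rfl⟩, rfl⟩
  have hm : ∀ i, (X i - C (P i) : MvPolynomial (Fin (E + 1)) K) ∈
      Ideal.span (Set.range fun j => X j - C (P j)) := fun i => Ideal.subset_span ⟨i, rfl⟩
  show sub ρ j t (X i - C (Function.update P j (P 0 ^ ρ + t * P j) i)) ∈
    Ideal.span (Set.range fun j => X j - C (P j))
  rw [map_sub, sub_C]
  by_cases h : i = j
  · subst h
    rw [sub_X_self, Function.update_self, C_add, C_pow, C_mul]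
    have e : (X 0 ^ ρ + C t * X i - (C (P 0) ^ ρ + C t * C (P i)) :
        MvPolynomial (Fin (E + 1)) K) = (X 0 ^ ρ - C (P 0) ^ ρ) + C t * (X i - C (P i)) := by ring
    rw [e]
    refine Ideal.add_mem _ ?_ (Ideal.mul_mem_left _ _ (hm i))
    obtain ⟨q, hq⟩ := sub_dvd_pow_sub_pow (X 0 : MvPolynomial (Fin (E + 1)) K) (C (P 0)) ρ
    rw [hq]
    exact Ideal.mul_mem_right _ _ (hm 0)
  · rw [sub_X_ne ρ t h, Function.update_of_ne h]
    exact hm i

theorem Z_sub (ρ : ℕ) (j : Fin (E + 1)) (t : K) (w : Fin n → ℕ) (x : Fin n → Fin (E + 1) → K) :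
    Z w (fun i => Function.update (x i) j (x i 0 ^ ρ + t * x i j)) ≤
      (Z w x).comap (sub ρ j t) := by
  intro f hf
  rw [Ideal.mem_comap, mem_Z]
  rw [mem_Z] at hf
  intro i
  have h1 := Ideal.mem_map_of_mem (sub ρ j t) (hf i)
  rw [Ideal.map_pow] at h1
  exact Ideal.pow_right_mono (Ideal.map_le_iff_le_comap.2 (pt_sub ρ t (x i))) (w i) h1

end Pool.Agent.H932R5
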