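import Mathlib
import Pool.Agent.H932R5.Alg

set_option autoImplicit false

/-!
# The compression step
-/

namespace Pool.Agent.H932R5

open MvPolynomial

variable {K : Type*} [Field K] {E n : ℕ}

/-- The exponent `p` with entries `a` at `0` and `b` at `j`. -/
noncomputable def up (p : Fin (E + 1) →₀ ℕ) (j : Fin (E + 1)) (a b : ℕ) : Fin (E + 1) →₀ ℕ :=
  Finsupp.equivFunOnFinite.symm (Function.update (Function.update p 0 a) j b)

theorem up_self (p : Fin (E + 1) →₀ ℕ) (j : Fin (E + 1)) (a b : ℕ) : up p j a b j = b := by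
  simp [up]

theorem up_zero (p : Fin (E + 1) →₀ ℕ) {j : Fin (E + 1)} (hj : j ≠ 0) (a b : ℕ) :
    up p j a b 0 = a := by
  simp [up, Function.update_of_ne hj.symm]

theorem up_other (p : Fin (E + 1) →₀ ℕ) {i j : Fin (E + 1)} (hi : i ≠ 0) (hij : i ≠ j)
    (a b : ℕ) : up p j a b i = p i := by
  simp [up, Function.update_of_ne hij, Function.update_of_ne hi]

theorem up_up (p : Fin (E + 1) →₀ ℕ) {j : Fin (E + 1)} (hj : j ≠ 0) (a b a' b' : ℕ) :
    up (up p j a b) j a' b' = up p j a' b' := by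
  ext i
  by_cases h0 : i = 0
  · subst h0
    rw [up_zero _ hj, up_zero _ hj]
  · by_cases h1 : i = j
    · subst h1
      rw [up_self, up_self]
    · rw [up_other _ h0 h1, up_other _ h0 h1, up_other _ h0 h1]

theorem up_eta (p : Fin (E + 1) →₀ ℕ) {j : Fin (E + 1)} (hj : j ≠ 0) {a b : ℕ} (ha : a = p 0)
    (hb : b = p j) : up p j a b = p := by
  ext i
  by_cases h0 : i = 0
  · subst h0
    rw [up_zero _ hj, ha]
  · by_cases h1 : i = j
    · subst h1
      rw [up_self, hb]
    · rw [up_other _ h0 h1]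

/-- The part of a monomial not involving `x_0` and `x_j`. -/
noncomputable def rest (K : Type*) [Field K] (p : Fin (E + 1) →₀ ℕ) (j : Fin (E + 1)) :
    MvPolynomial (Fin (E + 1)) K :=
  ∏ i, if i = 0 ∨ i = j then 1 else X i ^ p i

theorem monomial_up (p : Fin (E + 1) →₀ ℕ) {j : Fin (E + 1)} (hj : j ≠ 0) (a b : ℕ) :
    (monomial (up p j a b) (1 : K)) = X 0 ^ a * X j ^ b * rest K p j := by
  rw [monomial_eq, C_1, one_mul, Finsupp.prod_fintype _ _ (fun i => pow_zero _), rest]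
  have h1 : (X 0 ^ a : MvPolynomial (Fin (E + 1)) K) =
      ∏ i : Fin (E + 1), if i = 0 then X i ^ a else 1 := by
    rw [Finset.prod_ite_eq' Finset.univ (0 : Fin (E + 1)) (fun i => X i ^ a)]
    simp
  have h2 : (X j ^ b : MvPolynomial (Fin (E + 1)) K) =
      ∏ i : Fin (E + 1), if i = j then X i ^ b else 1 := by
    rw [Finset.prod_ite_eq' Finset.univ j (fun i => X i ^ b)]
    simp
  rw [h1, h2, ← Finset.prod_mul_distrib, ← Finset.prod_mul_distrib]
  refine Finset.prod_congr rfl fun i _ => ?_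
  by_cases h0 : i = 0
  · subst h0
    rw [up_zero _ hj, if_pos rfl, if_neg hj.symm, if_pos (Or.inl rfl), mul_one, mul_one]
  · by_cases h3 : i = j
    · subst h3
      rw [up_self, if_neg h0, if_pos rfl, if_pos (Or.inr rfl), one_mul, mul_one]
    · rw [up_other _ h0 h3, if_neg h0, if_neg h3, if_neg (by tauto), one_mul, one_mul]

theorem sub_rest (ρ : ℕ) (p : Fin (E + 1) →₀ ℕ) (j : Fin (E + 1)) (t : K) :
    sub ρ j t (rest K p j) = rest K p j := by
  unfold rest
  rw [map_prod]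
  refine Finset.prod_congr rfl fun i _ => ?_
  by_cases h : i = 0 ∨ i = j
  · rw [if_pos h, map_one]
  · rw [if_neg h, map_pow, sub_X_ne ρ t (by tauto)]

theorem sub_up (ρ : ℕ) (p : Fin (E + 1) →₀ ℕ) {j : Fin (E + 1)} (hj : j ≠ 0) (t : K)
    (c l : ℕ) (h : ρ * l ≤ c) (B : ℕ) (hB : l ≤ B) :
    sub ρ j t (monomial (up p j (c - ρ * l) l) 1) =
      ∑ k ∈ Finset.range (B + 1), (t ^ k * (l.choose k : K)) •
        monomial (up p j (c - ρ * k) k) 1 := by
  have h1 : sub ρ j t (monomial (up p j (c - ρ * l) l) 1) =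
      ∑ k ∈ Finset.range (l + 1), (t ^ k * (l.choose k : K)) •
        monomial (up p j (c - ρ * k) k) 1 := by
    rw [monomial_up p hj, map_mul, map_mul, map_pow, map_pow, sub_X_self, sub_X_ne ρ t hj.symm,
      sub_rest, add_comm (X 0 ^ ρ), add_pow, Finset.mul_sum, Finset.sum_mul]
    refine Finset.sum_congr rfl fun k hk => ?_
    have hk' : k ≤ l := Nat.lt_succ_iff.1 (Finset.mem_range.1 hk)
    have e : c - ρ * k = (c - ρ * l) + ρ * (l - k) := by
      have h2 : ρ * k ≤ ρ * l := Nat.mul_le_mul_left _ hk'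
      rw [Nat.mul_sub]
      omega
    rw [monomial_up p hj, e, smul_eq_C_mul, C_mul, C_pow, pow_add, pow_mul, mul_pow,
      map_natCast C]
    ring
  rw [h1]
  refine Finset.sum_subset (fun j hj => ?_) fun j _ hj => ?_
  · rw [Finset.mem_range] at hj ⊢
    omega
  · rw [Finset.mem_range, not_lt] at hj
    rw [Nat.choose_eq_zero_of_lt (by omega), Nat.cast_zero, mul_zero, zero_smul]

/-- The involution of the exponents. -/
noncomputable def tau (ρ : ℕ) (j : Fin (E + 1)) (p : Fin (E + 1) →₀ ℕ) : Fin (E + 1) →₀ ℕ :=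
  up p j (p 0 % ρ + ρ * p j) (p 0 / ρ)

theorem tau_tau {ρ : ℕ} (hρ : 0 < ρ) {j : Fin (E + 1)} (hj : j ≠ 0) (p : Fin (E + 1) →₀ ℕ) :
    tau ρ j (tau ρ j p) = p := by
  unfold tau
  rw [up_self, up_zero _ hj, up_up _ hj]
  refine up_eta _ hj ?_ ?_
  · rw [Nat.add_mul_mod_self_left, Nat.mod_mod]
    exact Nat.mod_add_div _ _
  · rw [Nat.add_mul_div_left _ _ hρ, Nat.div_eq_of_lt (Nat.mod_lt _ hρ), zero_add]

theorem Rk.step [Infinite K] [CharZero K] {w : Fin n → ℕ} {M : Set (Fin (E + 1) →₀ ℕ)} {N : ℕ}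
    {ρ : ℕ} (hρ : 0 < ρ) {j : Fin (E + 1)} (hj : j ≠ 0) (B : ℕ) (hB : ∀ p ∈ M, p j ≤ B)
    (hcl : ∀ p ∈ M, ρ ≤ p 0 → up p j (p 0 - ρ) (p j + 1) ∈ M)
    (hR : Rk K w {p | tau ρ j p ∈ M} N) : Rk K w M N := by
  classical
  refine Rk.transfer B (sub ρ j) (fun t ht x' => ⟨_, Z_sub ρ j t w x'⟩) (fun p hp => ?_) hR
  have hp : tau ρ j p ∈ M := hp
  obtain ⟨q, hq⟩ : ∃ q, q = p j := ⟨_, rfl⟩
  obtain ⟨c, hc⟩ : ∃ c, c = p 0 + ρ * q := ⟨_, rfl⟩
  have hmem : ∀ k ≤ q, up p j (c - ρ * (p 0 / ρ + k)) (p 0 / ρ + k) ∈ M := by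
    intro k
    induction k with
    | zero =>
      intro _
      have e : up p j (c - ρ * (p 0 / ρ + 0)) (p 0 / ρ + 0) = tau ρ j p := by
        unfold tau
        rw [add_zero, hc, ← hq]
        have := Nat.mod_add_div (p 0) ρ
        congr 1
        omega
      rw [e]
      exact hp
    | succ k ih =>
      intro hk
      have h1 := ih (by omega)
      have e2 : ρ * (p 0 / ρ + k) = ρ * (p 0 / ρ) + ρ * k := by ring
      have e3 : ρ * (p 0 / ρ + (k + 1)) = ρ * (p 0 / ρ) + ρ * k + ρ := by ring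
      have h4 : ρ * (k + 1) ≤ ρ * q := Nat.mul_le_mul_left _ hk
      have e4 : ρ * (k + 1) = ρ * k + ρ := by ring
      have := Nat.mod_add_div (p 0) ρ
      have h2 := hcl _ h1 (by
        rw [up_zero _ hj]
        omega)
      rw [up_zero _ hj, up_self, up_up _ hj] at h2
      have e : c - ρ * (p 0 / ρ + (k + 1)) = c - ρ * (p 0 / ρ + k) - ρ := by omega
      rw [e]
      exact h2
  obtain ⟨e, he⟩ := H932R2.exists_choose_inverse (K := K) B q
    (fun k hk _ => Nat.cast_ne_zero.2 hk.ne') (fun a : Fin (q + 1) => p 0 / ρ + (a : ℕ))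
    (fun a b hab => Fin.ext (by simpa using hab)) (fun a => by
      have := hB _ (hmem a (Nat.lt_succ_iff.1 a.2))
      rwa [up_self] at this)
  have hmemc : ∀ a : Fin (q + 1), ρ * (p 0 / ρ + (a : ℕ)) ≤ c := by
    intro a
    have h1 : ρ * (p 0 / ρ + (a : ℕ)) = ρ * (p 0 / ρ) + ρ * a := by ring
    have h2 : ρ * (a : ℕ) ≤ ρ * q := Nat.mul_le_mul_left _ (Nat.lt_succ_iff.1 a.2)
    have := Nat.mod_add_div (p 0) ρ
    omega
  have hmemB : ∀ a : Fin (q + 1), p 0 / ρ + (a : ℕ) ≤ B := by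
    intro a
    have := hB _ (hmem a (Nat.lt_succ_iff.1 a.2))
    rwa [up_self] at this
  refine ⟨fun k => (∑ a, e a * (((p 0 / ρ + (a : ℕ)).choose (q + k) : ℕ) : K)) •
    monomial (up p j (c - ρ * (q + k)) (q + k)) 1, ?_, fun t ht => ?_⟩
  · beta_reduce
    simp only [add_zero]
    rw [he q le_rfl, if_pos rfl, one_smul]
    have e : up p j (c - ρ * q) q = p := up_eta _ hj (by omega) hq
    rw [e]
  · have key : sub ρ j t (∑ a : Fin (q + 1), e a •
          monomial (up p j (c - ρ * (p 0 / ρ + (a : ℕ))) (p 0 / ρ + (a : ℕ))) 1) =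
        t ^ q • ∑ k ∈ Finset.range (B + 1), t ^ k •
          ((∑ a, e a * (((p 0 / ρ + (a : ℕ)).choose (q + k) : ℕ) : K)) •
            monomial (up p j (c - ρ * (q + k)) (q + k)) 1) := by
      rw [map_sum]
      have h1 : ∀ a : Fin (q + 1), sub ρ j t (e a •
          monomial (up p j (c - ρ * (p 0 / ρ + (a : ℕ))) (p 0 / ρ + (a : ℕ))) 1) =
          ∑ b ∈ Finset.range (q + (B + 1)),
            (t ^ b * (e a * (((p 0 / ρ + (a : ℕ)).choose b : ℕ) : K))) •
            monomial (up p j (c - ρ * b) b) 1 := by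
        intro a
        rw [map_smul, sub_up ρ p hj t c _ (hmemc a) (q + B) (by have := hmemB a; omega),
          Finset.smul_sum]
        refine Finset.sum_congr rfl fun b _ => ?_
        rw [smul_smul]
        congr 1
        ring
      simp only [h1]
      rw [Finset.sum_comm, Finset.sum_range_add]
      have h2 : ∑ b ∈ Finset.range q, ∑ a : Fin (q + 1),
            (t ^ b * (e a * (((p 0 / ρ + (a : ℕ)).choose b : ℕ) : K))) •
            (monomial (up p j (c - ρ * b) b) (1 : K)) = 0 := by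
        refine Finset.sum_eq_zero fun b hb => ?_
        rw [Finset.mem_range] at hb
        rw [← Finset.sum_smul, ← Finset.mul_sum, he b hb.le, if_neg (by omega), mul_zero,
          zero_smul]
      rw [h2, zero_add, Finset.smul_sum]
      refine Finset.sum_congr rfl fun k _ => ?_
      rw [← Finset.sum_smul, ← Finset.mul_sum, smul_smul, smul_smul]
      congr 1
      ring
    have key' : ∑ k ∈ Finset.range (B + 1), t ^ k •
          ((∑ a, e a * (((p 0 / ρ + (a : ℕ)).choose (q + k) : ℕ) : K)) •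
            monomial (up p j (c - ρ * (q + k)) (q + k)) 1) =
        (t ^ q)⁻¹ • sub ρ j t (∑ a : Fin (q + 1), e a •
          monomial (up p j (c - ρ * (p 0 / ρ + (a : ℕ))) (p 0 / ρ + (a : ℕ))) 1) := by
      rw [key, smul_smul, inv_mul_cancel₀ (pow_ne_zero _ ht), one_smul]
    rw [key', ← map_smul]
    refine Submodule.mem_map_of_mem (Submodule.smul_mem _ _ (Submodule.sum_mem _ fun a _ =>
      Submodule.smul_mem _ _ (Submodule.subset_span ⟨_, hmem a (Nat.lt_succ_iff.1 a.2), rfl⟩)))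

end Pool.Agent.H932R5
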