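import Mathlib
import Pool.Agent.H932R5.Step

set_option autoImplicit false

/-!
# Simplices of exponents
-/

namespace Pool.Agent.H932R5

open MvPolynomial

variable {K : Type*} [Field K] {E n : ℕ}

/-- For some points `x`, no nonzero polynomial supported in `M` lies in `Z w x`. -/
def Full (K : Type*) [Field K] (w : Fin n → ℕ) (M : Set (Fin (E + 1) →₀ ℕ)) : Prop :=
  ∃ x : Fin n → Fin (E + 1) → K, ∀ f ∈ Z w x, (∀ α, coeff α f ≠ 0 → α ∈ M) → f = 0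

theorem Full.mono {w : Fin n → ℕ} {M M' : Set (Fin (E + 1) →₀ ℕ)} (h : M ⊆ M')
    (hF : Full K w M') : Full K w M := by
  obtain ⟨x, hx⟩ := hF
  exact ⟨x, fun f hf hM => hx f hf fun α hα => h (hM α hα)⟩

/-- Enumeration of a finite set of exponents. -/
noncomputable def enumM (M : Finset (Fin (E + 1) →₀ ℕ)) : Fin M.card → (Fin (E + 1) →₀ ℕ) :=
  fun i => (M.equivFin.symm i : Fin (E + 1) →₀ ℕ)

theorem enumM_mem (M : Finset (Fin (E + 1) →₀ ℕ)) (i : Fin M.card) : enumM M i ∈ M :=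
  (M.equivFin.symm i).2

theorem enumM_inj (M : Finset (Fin (E + 1) →₀ ℕ)) : Function.Injective (enumM M) :=
  Subtype.val_injective.comp M.equivFin.symm.injective

theorem enumM_surj (M : Finset (Fin (E + 1) →₀ ℕ)) {p : Fin (E + 1) →₀ ℕ} (hp : p ∈ M) :
    ∃ i, enumM M i = p :=
  ⟨M.equivFin ⟨p, hp⟩, by simp [enumM]⟩

theorem coeff_sum_enum (M : Finset (Fin (E + 1) →₀ ℕ)) (c : Fin M.card → K) (i : Fin M.card) :
    coeff (enumM M i) (∑ k, c k • (monomial (enumM M k) (1 : K))) = c i := by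
  classical
  rw [coeff_sum, Finset.sum_eq_single i]
  · rw [coeff_smul, coeff_monomial, if_pos rfl, smul_eq_mul, mul_one]
  · intro k _ hk
    rw [coeff_smul, coeff_monomial, if_neg (fun h => hk (enumM_inj M h)), smul_zero]
  · intro h
    exact absurd (Finset.mem_univ i) h

theorem Full.rk {w : Fin n → ℕ} {M : Finset (Fin (E + 1) →₀ ℕ)}
    (h : Full K w (↑M : Set (Fin (E + 1) →₀ ℕ))) :
    Rk K w (↑M : Set (Fin (E + 1) →₀ ℕ)) M.card := by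
  classical
  obtain ⟨x, hx⟩ := h
  refine ⟨x, fun i => monomial (enumM M i) 1, fun i => Submodule.subset_span
    ⟨_, enumM_mem M i, rfl⟩, fun c hc i => ?_⟩
  have h1 := hx _ hc (fun α hα => ?_)
  · have h2 := coeff_sum_enum M c i
    rw [h1, coeff_zero] at h2
    exact h2.symm
  · have h3 : ∑ i, c i • (monomial (enumM M i) (1 : K)) ∈ mspan K (↑M : Set (Fin (E + 1) →₀ ℕ)) :=
      Submodule.sum_mem _ fun i _ => Submodule.smul_mem _ _ (Submodule.subset_span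
        ⟨_, enumM_mem M i, rfl⟩)
    exact mem_mspan.1 h3 α hα

theorem mspan_eq_range (M : Finset (Fin (E + 1) →₀ ℕ)) :
    mspan K (↑M : Set (Fin (E + 1) →₀ ℕ)) =
    Submodule.span K (Set.range fun i => monomial (enumM M i) (1 : K)) := by
  unfold mspan
  congr 1
  ext f
  constructor
  · rintro ⟨p, hp, rfl⟩
    obtain ⟨i, rfl⟩ := enumM_surj M hp
    exact ⟨i, rfl⟩
  · rintro ⟨i, rfl⟩
    exact ⟨_, enumM_mem M i, rfl⟩

theorem li_of_li_in_span {V : Type*} [AddCommGroup V] [Module K V] {N : ℕ} (u v : Fin N → V)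
    (hu : LinearIndependent K u) (h : ∀ i, u i ∈ Submodule.span K (Set.range v)) :
    LinearIndependent K v := by
  rw [linearIndependent_iff_card_le_finrank_span]
  have h1 := finrank_span_eq_card hu
  rw [← h1]
  have : FiniteDimensional K (Submodule.span K (Set.range v)) :=
    FiniteDimensional.span_of_finite K (Set.finite_range v)
  refine Submodule.finrank_mono (Submodule.span_le.2 ?_)
  rintro _ ⟨i, rfl⟩
  exact h i

theorem Rk.full {w : Fin n → ℕ} {M : Finset (Fin (E + 1) →₀ ℕ)}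
    (hR : Rk K w (↑M : Set (Fin (E + 1) →₀ ℕ)) M.card) :
    Full K w (↑M : Set (Fin (E + 1) →₀ ℕ)) := by
  classical
  obtain ⟨x, v, hv, hli⟩ := hR
  refine ⟨x, fun f hf hM => ?_⟩
  have h0 : ∀ c : Fin M.card → K, ∑ i, c i • (monomial (enumM M i) (1 : K)) ∈ Z w x →
      ∀ i, c i = 0 := by
    rw [← li_mk_iff] at hli ⊢
    refine li_of_li_in_span _ _ hli fun i => ?_
    have h1 := hv i
    rw [mspan_eq_range] at h1
    have h2 := Submodule.mem_map_of_mem (f := (Ideal.Quotient.mkₐ K (Z w x)).toLinearMap) h1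
    rw [Submodule.map_span, ← Set.range_comp] at h2
    exact h2
  have h1 : f ∈ mspan K (↑M : Set (Fin (E + 1) →₀ ℕ)) := mem_mspan.2 hM
  rw [mspan_eq_range, Submodule.mem_span_range_iff_exists_fun] at h1
  obtain ⟨c, rfl⟩ := h1
  have h2 := h0 c hf
  exact Finset.sum_eq_zero fun i _ => by rw [h2 i, zero_smul]

theorem Full.step [Infinite K] [CharZero K] {w : Fin n → ℕ} {M : Set (Fin (E + 1) →₀ ℕ)}
    (hfin : M.Finite) {ρ : ℕ} (hρ : 0 < ρ) {j : Fin (E + 1)} (hj : j ≠ 0)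
    (hcl : ∀ p ∈ M, ρ ≤ p 0 → up p j (p 0 - ρ) (p j + 1) ∈ M)
    (hR : Full K w {p | tau ρ j p ∈ M}) : Full K w M := by
  classical
  obtain ⟨M, rfl⟩ := hfin.exists_finset_coe
  have h1 : ({p | tau ρ j p ∈ (↑M : Set (Fin (E + 1) →₀ ℕ))} : Set (Fin (E + 1) →₀ ℕ)) =
      (↑(M.image (tau ρ j)) : Set (Fin (E + 1) →₀ ℕ)) := by
    ext p
    rw [Finset.coe_image]
    constructor
    · intro hp
      exact ⟨_, hp, tau_tau hρ hj p⟩
    · rintro ⟨q, hq, rfl⟩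
      show tau ρ j (tau ρ j q) ∈ (↑M : Set (Fin (E + 1) →₀ ℕ))
      rw [tau_tau hρ hj]
      exact hq
  have h2 : (M.image (tau ρ j)).card = M.card := by
    refine Finset.card_image_of_injective _ fun a b hab => ?_
    rw [← tau_tau hρ hj a, hab, tau_tau hρ hj]
  rw [h1] at hR
  have h3 := hR.rk
  rw [h2] at h3
  refine Rk.full (Rk.step hρ hj (M.sup fun p => p j) (fun p hp => Finset.le_sup (f := fun p => p j)
    hp) hcl ?_)
  rw [h1]
  exact h3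

/-- The exponents `p` with `∑ a i * p i ≤ c`. -/
def Sx (a : Fin (E + 1) → ℝ) (c : ℝ) : Set (Fin (E + 1) →₀ ℕ) :=
  {p | ∑ i, a i * (p i : ℝ) ≤ c}

theorem mem_Sx {a : Fin (E + 1) → ℝ} {c : ℝ} {p : Fin (E + 1) →₀ ℕ} :
    p ∈ Sx a c ↔ ∑ i, a i * (p i : ℝ) ≤ c := Iff.rfl

theorem le_of_mem_Sx {a : Fin (E + 1) → ℝ} (ha : ∀ i, 0 < a i) {c : ℝ} {p : Fin (E + 1) →₀ ℕ}
    (hp : p ∈ Sx a c) (i : Fin (E + 1)) : a i * (p i : ℝ) ≤ c := by
  refine le_trans ?_ (mem_Sx.1 hp)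
  exact Finset.single_le_sum (f := fun i => a i * (p i : ℝ))
    (fun i _ => mul_nonneg (ha i).le (Nat.cast_nonneg _)) (Finset.mem_univ i)

theorem finite_Sx {a : Fin (E + 1) → ℝ} (ha : ∀ i, 0 < a i) (c : ℝ) : (Sx a c).Finite := by
  classical
  let F : Fin (E + 1) →₀ ℕ := Finsupp.equivFunOnFinite.symm fun i => ⌊c / a i⌋₊
  refine (Set.finite_Iic F).subset fun _ hp i => ?_
  have h1 := le_of_mem_Sx ha hp i
  refine (?_ : _ ≤ ⌊c / a i⌋₊)
  refine Nat.le_floor ?_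
  rw [le_div_iff₀ (ha i), mul_comm]
  exact h1

theorem Sx_mono {a a' : Fin (E + 1) → ℝ} {c c' : ℝ} (ha : ∀ i, a' i ≤ a i) (hc : c ≤ c') :
    Sx a c ⊆ Sx a' c' := fun p hp =>
  (Finset.sum_le_sum fun i _ => mul_le_mul_of_nonneg_right (ha i) (Nat.cast_nonneg _)).trans
    ((mem_Sx.1 hp).trans hc)

/-- The new weights after a compression. -/
noncomputable def nw (a : Fin (E + 1) → ℝ) (j : Fin (E + 1)) (u v : ℝ) : Fin (E + 1) → ℝ :=
  Function.update (Function.update a 0 u) j v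

theorem nw_self (a : Fin (E + 1) → ℝ) (j : Fin (E + 1)) (u v : ℝ) : nw a j u v j = v := by
  simp [nw]

theorem nw_zero (a : Fin (E + 1) → ℝ) {j : Fin (E + 1)} (hj : j ≠ 0) (u v : ℝ) :
    nw a j u v 0 = u := by
  simp [nw, Function.update_of_ne hj.symm]

theorem nw_other (a : Fin (E + 1) → ℝ) {i j : Fin (E + 1)} (hi : i ≠ 0) (hij : i ≠ j)
    (u v : ℝ) : nw a j u v i = a i := by
  simp [nw, Function.update_of_ne hij, Function.update_of_ne hi]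

/-- The part of the weight not involving `0` and `j`. -/
noncomputable def rw0 (a : Fin (E + 1) → ℝ) (j : Fin (E + 1)) (p : Fin (E + 1) →₀ ℕ) : ℝ :=
  ∑ i, if i = 0 ∨ i = j then 0 else a i * (p i : ℝ)

theorem sum_split (a : Fin (E + 1) → ℝ) {j : Fin (E + 1)} (hj : j ≠ 0)
    (p : Fin (E + 1) →₀ ℕ) :
    ∑ i, a i * (p i : ℝ) = a 0 * p 0 + a j * p j + rw0 a j p := by
  have h1 : a 0 * (p 0 : ℝ) = ∑ i : Fin (E + 1), if i = 0 then a i * (p i : ℝ) else 0 := by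
    rw [Finset.sum_ite_eq' Finset.univ (0 : Fin (E + 1)) (fun i => a i * (p i : ℝ))]
    simp
  have h2 : a j * (p j : ℝ) = ∑ i : Fin (E + 1), if i = j then a i * (p i : ℝ) else 0 := by
    rw [Finset.sum_ite_eq' Finset.univ j (fun i => a i * (p i : ℝ))]
    simp
  rw [h1, h2, rw0, ← Finset.sum_add_distrib, ← Finset.sum_add_distrib]
  refine Finset.sum_congr rfl fun i _ => ?_
  by_cases h0 : i = 0
  · subst h0
    rw [if_pos rfl, if_neg hj.symm, if_pos (Or.inl rfl)]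
    ring
  · by_cases h3 : i = j
    · subst h3
      rw [if_neg h0, if_pos rfl, if_pos (Or.inr rfl)]
      ring
    · rw [if_neg h0, if_neg h3, if_neg (by tauto)]
      ring

theorem rw0_up (a : Fin (E + 1) → ℝ) (j : Fin (E + 1)) (p : Fin (E + 1) →₀ ℕ) (x y : ℕ) :
    rw0 a j (up p j x y) = rw0 a j p := by
  refine Finset.sum_congr rfl fun i _ => ?_
  by_cases h : i = 0 ∨ i = j
  · rw [if_pos h, if_pos h]
  · rw [if_neg h, if_neg h, up_other p (by tauto) (by tauto)]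

theorem rw0_nw (a : Fin (E + 1) → ℝ) (j : Fin (E + 1)) (p : Fin (E + 1) →₀ ℕ) (u v : ℝ) :
    rw0 (nw a j u v) j p = rw0 a j p := by
  refine Finset.sum_congr rfl fun i _ => ?_
  by_cases h : i = 0 ∨ i = j
  · rw [if_pos h, if_pos h]
  · rw [if_neg h, if_neg h, nw_other a (by tauto) (by tauto)]

theorem sum_up (a : Fin (E + 1) → ℝ) {j : Fin (E + 1)} (hj : j ≠ 0)
    (p : Fin (E + 1) →₀ ℕ) (x y : ℕ) :
    ∑ i, a i * ((up p j x y) i : ℝ) = a 0 * x + a j * y + rw0 a j p := by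
  rw [sum_split a hj, up_zero _ hj, up_self, rw0_up]

theorem sum_nw (a : Fin (E + 1) → ℝ) {j : Fin (E + 1)} (hj : j ≠ 0)
    (p : Fin (E + 1) →₀ ℕ) (u v : ℝ) :
    ∑ i, (nw a j u v) i * (p i : ℝ) = u * p 0 + v * p j + rw0 a j p := by
  rw [sum_split _ hj, nw_zero _ hj, nw_self, rw0_nw]

theorem tau_val (a : Fin (E + 1) → ℝ) {j : Fin (E + 1)} (hj : j ≠ 0) {ρ : ℕ} (hρ : 0 < ρ)
    (p : Fin (E + 1) →₀ ℕ) :
    ∑ i, a i * ((tau ρ j p) i : ℝ) = ∑ i, (nw a j (a j / ρ) (ρ * a 0)) i * (p i : ℝ) +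
      ((p 0 % ρ : ℕ) : ℝ) * (a 0 - a j / ρ) := by
  unfold tau
  rw [sum_up a hj, sum_nw a hj]
  have h1 : (p 0 : ℝ) = ((p 0 % ρ : ℕ) : ℝ) + ρ * ((p 0 / ρ : ℕ) : ℝ) := by
    exact_mod_cast (Nat.mod_add_div (p 0) ρ).symm
  have hρ' : (ρ : ℝ) ≠ 0 := by exact_mod_cast hρ.ne'
  obtain ⟨r, hr⟩ : ∃ r : ℝ, r = ((p 0 % ρ : ℕ) : ℝ) := ⟨_, rfl⟩
  obtain ⟨q, hq⟩ : ∃ q : ℝ, q = ((p 0 / ρ : ℕ) : ℝ) := ⟨_, rfl⟩
  push_cast
  rw [h1, ← hr, ← hq]
  field_simp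
  ring

theorem Sx_closed {a : Fin (E + 1) → ℝ} {c : ℝ} {j : Fin (E + 1)} (hj : j ≠ 0) {ρ : ℕ}
    (h : a j ≤ ρ * a 0) : ∀ p ∈ Sx a c, ρ ≤ p 0 → up p j (p 0 - ρ) (p j + 1) ∈ Sx a c := by
  intro p hp hρ
  rw [mem_Sx] at hp ⊢
  rw [sum_split a hj] at hp
  rw [sum_up a hj]
  push_cast [Nat.cast_sub hρ]
  nlinarith

theorem Sx_upper {a : Fin (E + 1) → ℝ} {c : ℝ} {j : Fin (E + 1)} (hj : j ≠ 0) {ρ : ℕ}
    (hρ : 0 < ρ) (h : a j ≤ ρ * a 0) :
    {p | tau ρ j p ∈ Sx a c} ⊆ Sx (nw a j (a j / ρ) (ρ * a 0)) c := by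
  intro p hp
  have hp : tau ρ j p ∈ Sx a c := hp
  rw [mem_Sx, tau_val a hj hρ] at hp
  rw [mem_Sx]
  have h1 : (0 : ℝ) < ρ := by exact_mod_cast hρ
  have h2 : a j / ρ ≤ a 0 := by
    rw [div_le_iff₀ h1, mul_comm]
    exact h
  have h3 : 0 ≤ ((p 0 % ρ : ℕ) : ℝ) * (a 0 - a j / ρ) :=
    mul_nonneg (Nat.cast_nonneg _) (by linarith)
  linarith

theorem Sx_lower {a : Fin (E + 1) → ℝ} {c : ℝ} {j : Fin (E + 1)} (hj : j ≠ 0) {ρ : ℕ}
    (hρ : 0 < ρ) (h : a j ≤ ρ * a 0) :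
    Sx (nw a j (a j / ρ) (ρ * a 0)) (c - (ρ * a 0 - a j)) ⊆ {p | tau ρ j p ∈ Sx a c} := by
  intro p hp
  show tau ρ j p ∈ Sx a c
  rw [mem_Sx, tau_val a hj hρ]
  rw [mem_Sx] at hp
  have h1 : (0 : ℝ) < ρ := by exact_mod_cast hρ
  have h2 : a j / ρ ≤ a 0 := by
    rw [div_le_iff₀ h1, mul_comm]
    exact h
  have h3 : ((p 0 % ρ : ℕ) : ℝ) ≤ ρ := by exact_mod_cast (Nat.mod_lt _ hρ).le
  have h4 : ((p 0 % ρ : ℕ) : ℝ) * (a 0 - a j / ρ) ≤ ρ * (a 0 - a j / ρ) :=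
    mul_le_mul_of_nonneg_right h3 (by linarith)
  have h5 : (ρ : ℝ) * (a 0 - a j / ρ) = ρ * a 0 - a j := by
    field_simp
  linarith

/-- One step, for emptiness. -/
theorem Full.sx [Infinite K] [CharZero K] {w : Fin n → ℕ} {a : Fin (E + 1) → ℝ}
    (ha : ∀ i, 0 < a i) {c : ℝ} {j : Fin (E + 1)} (hj : j ≠ 0) {ρ : ℕ}
    (hρ : 0 < ρ) (h : a j ≤ ρ * a 0)
    (hF : Full K w (Sx (nw a j (a j / ρ) (ρ * a 0)) c)) : Full K w (Sx a c) :=
  Full.step (finite_Sx ha c) hρ hj (Sx_closed hj h) (hF.mono (Sx_upper hj hρ h))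

/-- One step, for ranks. -/
theorem Rk.sx [Infinite K] [CharZero K] {w : Fin n → ℕ} {N : ℕ} {a : Fin (E + 1) → ℝ}
    (ha : ∀ i, 0 < a i) {c : ℝ} {j : Fin (E + 1)} (hj : j ≠ 0) {ρ : ℕ}
    (hρ : 0 < ρ) (h : a j ≤ ρ * a 0)
    (hF : Rk K w (Sx (nw a j (a j / ρ) (ρ * a 0)) (c - (ρ * a 0 - a j))) N) :
    Rk K w (Sx a c) N := by
  refine Rk.step hρ hj ⌊c / a j⌋₊ (fun p hp => ?_) (Sx_closed hj h) (hF.mono (Sx_lower hj hρ h))
  have h1 := le_of_mem_Sx ha hp j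
  refine Nat.le_floor ?_
  rw [le_div_iff₀ (ha j), mul_comm]
  exact h1

end Pool.Agent.H932R5
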