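import Mathlib
import Pool.Agent.H932R5.Simplex

set_option autoImplicit false

/-!
# Openness in the position of the points
-/

namespace Pool.Agent.H932R5

open MvPolynomial

variable {K : Type*} [Field K] {E n : ℕ}

/-- Translation of the coordinates. -/
noncomputable def shift (P : Fin (E + 1) → K) :
    MvPolynomial (Fin (E + 1)) K →ₐ[K] MvPolynomial (Fin (E + 1)) K :=
  aeval (fun j => X j + C (P j))

theorem shift_X (P : Fin (E + 1) → K) (j : Fin (E + 1)) : shift P (X j) = X j + C (P j) := by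
  simp [shift]

theorem shift_C (P : Fin (E + 1) → K) (a : K) : shift P (C a) = C a :=
  (shift P).commutes a

theorem shift_shift (P : Fin (E + 1) → K) (f : MvPolynomial (Fin (E + 1)) K) :
    shift (fun j => - P j) (shift P f) = f := by
  have h : (shift (fun j => - P j)).comp (shift P) = AlgHom.id K _ := by
    refine MvPolynomial.algHom_ext fun i => ?_
    rw [AlgHom.comp_apply, shift_X, map_add, shift_X, shift_C, C_neg, AlgHom.id_apply]
    ring
  exact AlgHom.congr_fun h f

theorem mem_pt_pow_iff {P : Fin (E + 1) → K} {m : ℕ} {f : MvPolynomial (Fin (E + 1)) K} :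
    f ∈ pt P ^ m ↔ ∀ s : Fin (E + 1) →₀ ℕ, Finsupp.degree s < m → coeff s (shift P f) = 0 := by
  rw [← mem_pow_idealOfVars_iff']
  have hI : idealOfVars (Fin (E + 1)) K = Ideal.span (Set.range X) := rfl
  constructor
  · intro h
    have h1 := Ideal.mem_map_of_mem (shift P) h
    rw [Ideal.map_pow] at h1
    refine Ideal.pow_right_mono ?_ m h1
    unfold pt
    rw [Ideal.map_span, Ideal.span_le]
    rintro _ ⟨_, ⟨k, rfl⟩, rfl⟩
    show shift P (X k - C (P k)) ∈ idealOfVars (Fin (E + 1)) K
    rw [map_sub, shift_X, shift_C, add_sub_cancel_right, hI]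
    exact Ideal.subset_span ⟨k, rfl⟩
  · intro h
    have h1 := Ideal.mem_map_of_mem (shift (fun j => - P j)) h
    rw [Ideal.map_pow, shift_shift] at h1
    refine Ideal.pow_right_mono ?_ m h1
    rw [hI, Ideal.map_span, Ideal.span_le]
    rintro _ ⟨_, ⟨k, rfl⟩, rfl⟩
    show shift (fun j => - P j) (X k) ∈ pt P
    rw [shift_X, C_neg, ← sub_eq_add_neg]
    exact Ideal.subset_span ⟨k, rfl⟩

/-- The exponents of degree less than `m`. -/
theorem finite_deg (E m : ℕ) : {s : Fin (E + 1) →₀ ℕ | Finsupp.degree s < m}.Finite := by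
  refine (finite_Sx (E := E) (a := fun _ => 1) (fun _ => one_pos) (m : ℝ)).subset fun s hs => ?_
  have hs : Finsupp.degree s < m := hs
  rw [mem_Sx]
  rw [Finsupp.degree_eq_sum] at hs
  have : ((∑ i, s i : ℕ) : ℝ) ≤ m := by exact_mod_cast hs.le
  push_cast at this
  simpa using this

/-- The exponents of degree less than `m`. -/
noncomputable def dg (E m : ℕ) : Finset (Fin (E + 1) →₀ ℕ) := (finite_deg E m).toFinset

theorem mem_dg {m : ℕ} {s : Fin (E + 1) →₀ ℕ} : s ∈ dg E m ↔ Finsupp.degree s < m := by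
  unfold dg
  rw [Set.Finite.mem_toFinset]
  rfl

/-- The index set of the vanishing conditions. -/
abbrev Cnd (E : ℕ) {n : ℕ} (w : Fin n → ℕ) : Type := Σ i : Fin n, {s // s ∈ dg E (w i)}

/-- The vanishing conditions. -/
noncomputable def cnd (w : Fin n → ℕ) (P : Fin n → Fin (E + 1) → K) :
    MvPolynomial (Fin (E + 1)) K →ₗ[K] (Cnd E w → K) where
  toFun f := fun q => coeff q.2.1 (shift (P q.1) f)
  map_add' f g := by
    funext q
    rw [map_add, coeff_add]
    rfl
  map_smul' c f := by
    funext q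
    rw [map_smul, coeff_smul]
    rfl

theorem cnd_apply (w : Fin n → ℕ) (P : Fin n → Fin (E + 1) → K)
    (f : MvPolynomial (Fin (E + 1)) K) (q : Cnd E w) :
    cnd w P f q = coeff q.2.1 (shift (P q.1) f) := rfl

theorem mem_Z_iff {w : Fin n → ℕ} {P : Fin n → Fin (E + 1) → K}
    {f : MvPolynomial (Fin (E + 1)) K} : f ∈ Z w P ↔ cnd w P f = 0 := by
  rw [mem_Z]
  constructor
  · intro h
    funext q
    exact mem_pt_pow_iff.1 (h q.1) _ (mem_dg.1 q.2.2)
  · intro h i
    rw [mem_pt_pow_iff]
    intro s hs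
    exact congrFun h ⟨i, ⟨s, mem_dg.2 hs⟩⟩

/-- The generic translation. -/
noncomputable def gshift (K : Type*) [Field K] (E n : ℕ) (i : Fin n) :
    MvPolynomial (Fin (E + 1)) K →+* MvPolynomial (Fin (E + 1))
      (MvPolynomial (Fin n × Fin (E + 1)) K) :=
  eval₂Hom (C.comp C) (fun j => X j + C (X (i, j)))

theorem map_gshift (i : Fin n) (P : Fin n → Fin (E + 1) → K)
    (f : MvPolynomial (Fin (E + 1)) K) :
    map (eval (fun q : Fin n × Fin (E + 1) => P q.1 q.2)) (gshift K E n i f) =
      shift (P i) f := by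
  have h : (map (eval (fun q : Fin n × Fin (E + 1) => P q.1 q.2))).comp (gshift K E n i) =
      (shift (P i) : MvPolynomial (Fin (E + 1)) K →+* MvPolynomial (Fin (E + 1)) K) := by
    refine MvPolynomial.ringHom_ext (fun c => ?_) fun j => ?_
    · rw [RingHom.comp_apply, gshift, eval₂Hom_C, RingHom.comp_apply, map_C, eval_C,
        RingHom.coe_coe, shift_C]
    · rw [RingHom.comp_apply, gshift, eval₂Hom_X', map_add, map_X, map_C, eval_X,
        RingHom.coe_coe, shift_X]
  exact congrArg (fun φ : MvPolynomial (Fin (E + 1)) K →+* MvPolynomial (Fin (E + 1)) K => φ f) h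

theorem exists_open {w : Fin n → ℕ} {N : ℕ} (v : Fin N → MvPolynomial (Fin (E + 1)) K)
    (x : Fin n → Fin (E + 1) → K)
    (h : ∀ c : Fin N → K, ∑ i, c i • v i ∈ Z w x → ∀ i, c i = 0) :
    ∃ F : MvPolynomial (Fin n × Fin (E + 1)) K, F ≠ 0 ∧
      ∀ P : Fin n → Fin (E + 1) → K,
        eval (fun q : Fin n × Fin (E + 1) => P q.1 q.2) F ≠ 0 →
        ∀ c : Fin N → K, ∑ i, c i • v i ∈ Z w P → ∀ i, c i = 0 := by
  classical
  let L : (Fin n → Fin (E + 1) → K) → (Fin N → K) →ₗ[K] (Cnd E w → K) := fun P =>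
    (cnd w P).comp (Fintype.linearCombination K v)
  have hL : ∀ P (a : Fin N → K), L P a = cnd w P (∑ i, a i • v i) := fun P a => rfl
  have hker : LinearMap.ker (L x) = ⊥ := by
    rw [LinearMap.ker_eq_bot']
    intro a ha
    rw [hL, ← mem_Z_iff] at ha
    exact funext (h a ha)
  obtain ⟨G, hG⟩ := LinearMap.exists_leftInverse_of_injective (L x) hker
  let Gen : Cnd E w → Fin N → MvPolynomial (Fin n × Fin (E + 1)) K := fun p i =>
    coeff p.2.1 (gshift K E n p.1 (v i))
  have hGen : ∀ (P : Fin n → Fin (E + 1) → K) p i,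
      eval (fun q : Fin n × Fin (E + 1) => P q.1 q.2) (Gen p i) = L P (Pi.single i 1) p := by
    intro P p i
    rw [hL]
    have h1 : ∑ j, (Pi.single i 1 : Fin N → K) j • v j = v i := by
      rw [Finset.sum_eq_single i]
      · simp
      · intro j _ hj
        rw [Pi.single_eq_of_ne hj, zero_smul]
      · intro h
        exact absurd (Finset.mem_univ i) h
    rw [h1, cnd_apply, ← map_gshift, coeff_map]
  let Mx : Matrix (Fin N) (Fin N) (MvPolynomial (Fin n × Fin (E + 1)) K) := fun k i =>
    ∑ p, C (G (Pi.single p 1) k) * Gen p i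
  have hMx : ∀ (P : Fin n → Fin (E + 1) → K) k i,
      eval (fun q : Fin n × Fin (E + 1) => P q.1 q.2) (Mx k i) = G (L P (Pi.single i 1)) k := by
    intro P k i
    show eval (fun q : Fin n × Fin (E + 1) => P q.1 q.2)
      (∑ p, C (G (Pi.single p 1) k) * Gen p i) = _
    rw [map_sum]
    have h1 : L P (Pi.single i 1) = ∑ p, (L P (Pi.single i 1) p) • (Pi.single p 1 : _ → K) := by
      ext q
      simp [Finset.sum_apply, Pi.single_apply]
    conv_rhs => rw [h1]
    rw [map_sum, Finset.sum_apply]
    refine Finset.sum_congr rfl fun p _ => ?_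
    rw [map_mul, eval_C, hGen, map_smul, Pi.smul_apply, smul_eq_mul, mul_comm]
  have hdet : ∀ P : Fin n → Fin (E + 1) → K,
      eval (fun q : Fin n × Fin (E + 1) => P q.1 q.2) Mx.det =
      (Matrix.of fun k i => G (L P (Pi.single i 1)) k).det := by
    intro P
    rw [RingHom.map_det]
    congr 1
    ext k i
    exact hMx P k i
  refine ⟨Mx.det, ?_, fun P hP a ha => ?_⟩
  · intro h0
    have h1 := hdet x
    rw [h0, map_zero] at h1
    have h2 : (Matrix.of fun k i => G (L x (Pi.single i 1)) k) =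
        (1 : Matrix (Fin N) (Fin N) K) := by
      ext k i
      have h3 : G (L x (Pi.single i 1)) = Pi.single i 1 :=
        LinearMap.congr_fun hG (Pi.single i 1)
      rw [Matrix.of_apply, h3, Matrix.one_apply, Pi.single_apply]
    rw [h2, Matrix.det_one] at h1
    exact zero_ne_one h1
  · rw [hdet] at hP
    rw [mem_Z_iff, ← hL] at ha
    have h1 : (Matrix.of fun k i => G (L P (Pi.single i 1)) k).mulVec a = 0 := by
      ext k
      rw [Matrix.mulVec, dotProduct, Pi.zero_apply]
      have h2 : a = ∑ i, a i • (Pi.single i 1 : Fin N → K) := by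
        ext q
        simp [Finset.sum_apply, Pi.single_apply]
      have h3 : G (L P a) k = ∑ i, a i * G (L P (Pi.single i 1)) k := by
        conv_lhs => rw [h2]
        rw [map_sum, map_sum, Finset.sum_apply]
        refine Finset.sum_congr rfl fun i _ => ?_
        rw [map_smul, map_smul, Pi.smul_apply, smul_eq_mul]
      rw [ha, map_zero, Pi.zero_apply] at h3
      rw [h3]
      exact Finset.sum_congr rfl fun i _ => mul_comm _ _
    exact fun i => congrFun (Matrix.eq_zero_of_mulVec_eq_zero hP h1) i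

end Pool.Agent.H932R5
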