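import Mathlib
import Pool.Agent.H932R5.Close

set_option autoImplicit false

/-!
# Every large real ratio is almost reachable
-/

namespace Pool.Agent.H932R5

open Pool.Agent.H932R3

theorem final_acc {K r V : ℕ} {u T X : ℝ}
    (hV : V = 4 * (shQ (K + 1) * (K + 2).factorial) * 13 ^ (K + 3) * 2 ^ K) (hVr : V ≤ r)
    (hr : 1 ≤ r) (hu0 : 0 < u) (hu : u ≤ 2 * r) (hT0 : 0 < T) (hX : (r : ℝ) / 13 ≤ X)
    (hT : T ≤ wu (K + 1) X) : 2 * u * T ≤ 1 / u ^ K := by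
  have hr1 : (1 : ℝ) ≤ r := by exact_mod_cast hr
  have hr0 : (0 : ℝ) < r := by linarith
  have hX0 : 0 < X := lt_of_lt_of_le (by positivity) hX
  have hc := ck_pos (K + 1)
  have h5 : wu (K + 1) X ≤ ck (K + 1) / ((r : ℝ) / 13) ^ (K + 3) := by
    unfold wu
    have h6 : ((r : ℝ) / 13) ^ (K + 3) ≤ X ^ (K + 3) := pow_le_pow_left₀ (by positivity) hX _
    have h7 : K + 1 + 2 = K + 3 := rfl
    rw [h7, div_le_div_iff₀ (by positivity) (by positivity)]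
    obtain ⟨a, ha⟩ : ∃ a, a = ((r : ℝ) / 13) ^ (K + 3) := ⟨_, rfl⟩
    obtain ⟨b, hb⟩ : ∃ b, b = X ^ (K + 3) := ⟨_, rfl⟩
    have hb0 : 0 < b := by rw [hb]; positivity
    rw [← ha, ← hb] at h6 ⊢
    have h8 := mul_le_mul_of_nonneg_left h6 hc.le
    have h9 := mul_pos hc hb0
    linarith
  have h9 : ck (K + 1) / ((r : ℝ) / 13) ^ (K + 3) * (2 * (2 * r)) * 2 ^ K =
      (V : ℝ) / (r : ℝ) ^ (K + 2) := by
    rw [hV]
    unfold ck
    have : K + 1 + 1 = K + 2 := rfl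
    rw [this]
    push_cast
    rw [div_pow, pow_succ (r : ℝ) (K + 2)]
    field_simp
    ring
  have h10 : (V : ℝ) / (r : ℝ) ^ (K + 2) ≤ 1 / (r : ℝ) ^ K := by
    rw [div_le_div_iff₀ (by positivity) (by positivity), one_mul, pow_add]
    have h11 : (V : ℝ) ≤ r := by exact_mod_cast hVr
    have h12 : (V : ℝ) ≤ (r : ℝ) ^ 2 := by nlinarith
    have h13 : (0 : ℝ) < (r : ℝ) ^ K := by positivity
    have h14 := mul_le_mul_of_nonneg_left h12 h13.le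
    linarith
  have h14 : 2 * u * T ≤ (1 / (r : ℝ) ^ K) / 2 ^ K := by
    rw [le_div_iff₀ (by positivity)]
    calc 2 * u * T * 2 ^ K ≤
        2 * (2 * r) * (ck (K + 1) / ((r : ℝ) / 13) ^ (K + 3)) * 2 ^ K := by
          refine mul_le_mul_of_nonneg_right ?_ (by positivity)
          exact mul_le_mul (by linarith) (hT.trans h5) hT0.le (by positivity)
      _ = (V : ℝ) / (r : ℝ) ^ (K + 2) := by rw [← h9]; ring
      _ ≤ 1 / (r : ℝ) ^ K := h10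
  refine h14.trans ?_
  rw [div_div, ← mul_pow]
  refine one_div_le_one_div_of_le (by positivity) ?_
  refine pow_le_pow_left₀ hu0.le ?_ K
  linarith

theorem small_of {r q A : ℕ} (hq1000 : 1000 ≤ q) (hA0 : 1 ≤ A) (hq22 : 22048 * A ≤ q)
    (hrq : r ≤ 13 * (A * q ^ 2)) (hr0 : 0 < r) : Small r (q ^ 2) := by
  intro p hp hpr hmod
  have h1000 : 1000 * q ≤ q ^ 2 := by
    rw [pow_two]
    exact Nat.mul_le_mul_right q hq1000
  obtain ⟨hg1, hg2⟩ := gam_le (p := p) (by omega) ((r - p) / 4)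
  have hrr : p + 4 * ((r - p) / 4) = r := by omega
  rw [hrr] at hg1 hg2
  rw [abs_of_nonneg hg1]
  refine hg2.trans ?_
  have hpP : (q : ℝ) ^ 2 ≤ p := by exact_mod_cast hp
  have hqR : (1000 : ℝ) ≤ q := by exact_mod_cast hq1000
  have hrR : (0 : ℝ) < r := by exact_mod_cast hr0
  have hrqR : (r : ℝ) ≤ 13 * (A * (q : ℝ) ^ 2) := by exact_mod_cast hrq
  have h1000R : 1000 * (q : ℝ) ≤ (q : ℝ) ^ 2 := by exact_mod_cast h1000
  have hq22R : 22048 * (A : ℝ) ≤ q := by exact_mod_cast hq22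
  have hAR : (1 : ℝ) ≤ A := by exact_mod_cast hA0
  have h1 : 0 ≤ 1 / (4 * ((p : ℝ) + 4 * (((r - p) / 4 : ℕ) : ℝ) - 2) ^ 2) := by positivity
  have h2 : 1 / (4 * ((p : ℝ) - 2) ^ 2) ≤ 1 / (32 * (r : ℝ)) := by
    refine div_le_div_of_nonneg_left (by norm_num) (by positivity) ?_
    have h3 : ((q : ℝ) ^ 2 / 2) ^ 2 ≤ ((p : ℝ) - 2) ^ 2 :=
      pow_le_pow_left₀ (by positivity) (by linarith) 2
    have h4 : 104 * (A : ℝ) ≤ (q : ℝ) ^ 2 / 4 := by linarith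
    have h5 : 104 * (A : ℝ) * (q : ℝ) ^ 2 ≤ (q : ℝ) ^ 2 / 4 * (q : ℝ) ^ 2 :=
      mul_le_mul_of_nonneg_right h4 (by positivity)
    have h6 : (q : ℝ) ^ 2 / 4 * (q : ℝ) ^ 2 = ((q : ℝ) ^ 2 / 2) ^ 2 := by ring
    linarith
  linarith

theorem reach_window {r q A : ℕ} {s0 u κ : ℝ} (hs : 1 ≤ s0) (ht : Tgt r u κ)
    (hq1000 : 1000 ≤ q) (hA0 : 1 ≤ A) (hq22 : 22048 * A ≤ q)
    (hrq : r ≤ 13 * (A * q ^ 2)) (h12 : 12 * q ^ 2 ≤ r) (hsq : s0 ≤ (q : ℝ) ^ 2) :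
    ∃ P T, q ^ 2 ≤ P ∧ P ≤ 12 * q ^ 2 ∧ P % 4 = r % 4 ∧ RV s0 κ P T ∧
      2 / (P : ℝ) ^ 2 ≤ T ∧ T ≤ 18 / (5 * (P : ℝ) ^ 2) ∧ 1696 * (q : ℝ) * r ≤ (P : ℝ) ^ 2 := by
  have hs0 : 0 < s0 := by linarith
  have h1000q : 1000 * q ≤ q ^ 2 := by
    rw [pow_two]
    exact Nat.mul_le_mul_right q hq1000
  have hr0 : 0 < r := by omega
  have hsm := small_of hq1000 hA0 hq22 hrq hr0
  have hqR : (1000 : ℝ) ≤ q := by exact_mod_cast hq1000
  have hrR : (0 : ℝ) < r := by exact_mod_cast hr0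
  have hrqR : (r : ℝ) ≤ 13 * (A * (q : ℝ) ^ 2) := by exact_mod_cast hrq
  have hq22R : 22048 * (A : ℝ) ≤ q := by exact_mod_cast hq22
  have hq0 : (0 : ℝ) < (q : ℝ) ^ 2 := by positivity
  obtain ⟨p, T, hT, hpm, hp1, hp2, hT1, hT2⟩ := start_pos hs ht hq1000 hsq h12
  have hpR : (q : ℝ) ^ 2 ≤ p := by exact_mod_cast hp1
  have hp0 : (0 : ℝ) < p := by linarith
  have hrp : ∀ z : ℝ, (q : ℝ) ^ 2 ≤ z → 1696 * (q : ℝ) * r ≤ z ^ 2 := by
    intro z hz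
    have h1 := pow_le_pow_left₀ (by positivity) hz 2
    refine le_trans ?_ h1
    have h2 : 1696 * (q : ℝ) * r ≤ 1696 * q * (13 * (A * (q : ℝ) ^ 2)) :=
      mul_le_mul_of_nonneg_left hrqR (by positivity)
    have h3 : 22048 * (A : ℝ) * (q : ℝ) ^ 3 ≤ q * (q : ℝ) ^ 3 :=
      mul_le_mul_of_nonneg_right hq22R (by positivity)
    have e1 : 1696 * (q : ℝ) * (13 * (A * (q : ℝ) ^ 2)) = 22048 * (A : ℝ) * (q : ℝ) ^ 3 := by
      ring
    have e2 : (q : ℝ) * (q : ℝ) ^ 3 = ((q : ℝ) ^ 2) ^ 2 := by ring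
    linarith
  obtain ⟨p', T', hp'1, hp'2, hp'm, hT', hT'1, hT'2⟩ := greedy hs0 ht (by omega) hsm (C := 53 * q)
    hp1 hpm (by omega) (by omega) hT1 (by push_cast; exact hT2) (by
      push_cast
      rw [div_le_div_iff₀ (by positivity) (by positivity)]
      have := hrp p hpR
      linarith) hT
  have hp'R : (q : ℝ) ^ 2 ≤ p' := by exact_mod_cast (show q ^ 2 ≤ p' by omega)
  have hp'0 : (0 : ℝ) < p' := by linarith
  obtain ⟨P, T2, hP1, hP2, hPm, hTP, hTP1, hTP2⟩ := settle hs0 ht (by omega) hsm (p := p')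
    (by omega) hp'm (by omega) hT'1 hT'2 (by
      rw [div_le_div_iff₀ (by positivity) (by positivity)]
      have h1 := hrp p' hp'R
      have h2 : 1000 * (r : ℝ) ≤ q * r := mul_le_mul_of_nonneg_right hqR hrR.le
      linarith) hT'
  have hPR : (q : ℝ) ^ 2 ≤ P := by exact_mod_cast (show q ^ 2 ≤ P by omega)
  exact ⟨P, T2, by omega, by omega, hPm, hTP, hTP1, hTP2, hrp P hPR⟩

theorem exists_q {r A Q0 : ℕ} (hA0 : 1 ≤ A) (hQ0 : 1000 ≤ Q0) (h : Q0 * Q0 * (12 * A) ≤ r) :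
    ∃ q, Q0 ≤ q ∧ q ^ 2 * (12 * A) ≤ r ∧ r ≤ 13 * (A * q ^ 2) := by
  have h12A : 0 < 12 * A := by omega
  obtain ⟨q, hq⟩ : ∃ q, q = (r / (12 * A)).sqrt := ⟨_, rfl⟩
  have hqq : q * q ≤ r / (12 * A) := by rw [hq]; exact Nat.sqrt_le _
  have hqq' : r / (12 * A) < (q + 1) * (q + 1) := by rw [hq]; exact Nat.lt_succ_sqrt _
  have hqQ : Q0 ≤ q := by
    rw [hq, Nat.le_sqrt, Nat.le_div_iff_mul_le h12A]
    exact h
  have hAq : q ^ 2 * (12 * A) ≤ r := by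
    rw [Nat.le_div_iff_mul_le h12A] at hqq
    rw [pow_two]
    exact hqq
  have hAq' : r < (q + 1) * (q + 1) * (12 * A) := by
    rwa [Nat.div_lt_iff_lt_mul h12A] at hqq'
  refine ⟨q, hqQ, hAq, ?_⟩
  have h1000q : 1000 * q ≤ q ^ 2 := by
    rw [pow_two]
    exact Nat.mul_le_mul_right q (by omega)
  have h1 : 12 * ((q + 1) * (q + 1)) ≤ 13 * q ^ 2 := by
    have e : (q + 1) * (q + 1) = q ^ 2 + 2 * q + 1 := by ring
    omega
  have h2 : (q + 1) * (q + 1) * (12 * A) = A * (12 * ((q + 1) * (q + 1))) := by ring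
  have h3 : A * (12 * ((q + 1) * (q + 1))) ≤ A * (13 * q ^ 2) := Nat.mul_le_mul_left _ h1
  have h4 : A * (13 * q ^ 2) = 13 * (A * q ^ 2) := by ring
  omega

/-- **Ratios reachable from `s0` very close to every real `u` much larger than `s0`.** -/
theorem exists_up (K : ℕ) : ∃ N : ℝ, 1 ≤ N ∧ ∀ s0 u : ℝ, 1 ≤ s0 → N * s0 ≤ u →
    ∃ σ, Up s0 σ ∧ σ ≤ u ∧ u - σ ≤ 1 / u ^ K := by
  obtain ⟨A, hA⟩ : ∃ A : ℕ, A = 5 ^ (K + 1) := ⟨_, rfl⟩
  have hA0 : 0 < A := by rw [hA]; positivity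
  obtain ⟨W, hW⟩ : ∃ W : ℕ, W = (K + 2) * (3 + shS K) := ⟨_, rfl⟩
  have hW0 : K + 2 ≤ W := by
    rw [hW]
    exact Nat.le_mul_of_pos_right _ (by omega)
  obtain ⟨V, hV⟩ : ∃ V : ℕ, V = 4 * (shQ (K + 1) * (K + 2).factorial) * 13 ^ (K + 3) * 2 ^ K :=
    ⟨_, rfl⟩
  have hAW : A ≤ A * W := Nat.le_mul_of_pos_right _ (by omega)
  have hWAW : W ≤ A * W := Nat.le_mul_of_pos_left _ hA0
  obtain ⟨Q0, hQ0⟩ : ∃ Q0 : ℕ, Q0 = 22049 * (A * W) := ⟨_, rfl⟩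
  obtain ⟨N, hN⟩ : ∃ N : ℕ, N = Q0 * Q0 * (12 * A) + V + 26 * A + 1 := ⟨_, rfl⟩
  refine ⟨(N : ℝ), ?_, fun s0 u hs hu => ?_⟩
  · exact_mod_cast (show 1 ≤ N by omega)
  have hNR : (1 : ℝ) ≤ N := by exact_mod_cast (show 1 ≤ N by omega)
  have huN : (N : ℝ) ≤ u := (le_mul_of_one_le_right (by linarith) hs).trans hu
  have hu0 : 0 < u := by linarith
  obtain ⟨r, hr⟩ : ∃ r : ℕ, r = ⌊u + 1 / 2⌋₊ := ⟨_, rfl⟩
  have hr1 : (r : ℝ) ≤ u + 1 / 2 := by
    rw [hr]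
    exact Nat.floor_le (by linarith)
  have hr2 : u + 1 / 2 < r + 1 := by
    rw [hr]
    exact Nat.lt_floor_add_one _
  have hNr : N ≤ r := by
    rw [hr]
    refine Nat.le_floor ?_
    linarith
  have hur : |u - r| ≤ 1 / 2 := by
    rw [abs_le]
    constructor <;> linarith
  obtain ⟨κ, hκ⟩ : ∃ κ, κ = bet r - Real.log u / 2 := ⟨_, rfl⟩
  have ht : Tgt r u κ := ⟨hκ, hur⟩
  have hr1R : (1 : ℝ) ≤ r := by exact_mod_cast (show 1 ≤ r by omega)
  obtain ⟨q, hqQ, hAq, hrq⟩ := exists_q (r := r) (A := A) (Q0 := Q0) hA0 (by omega) (by omega)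
  have hrqR : (r : ℝ) ≤ 13 * (A * (q : ℝ) ^ 2) := by exact_mod_cast hrq
  have h12 : 12 * q ^ 2 ≤ r := by
    have : q ^ 2 * 12 ≤ q ^ 2 * (12 * A) := Nat.mul_le_mul_left _ (by omega)
    omega
  have hsq : s0 ≤ (q : ℝ) ^ 2 := by
    have h1 : (26 : ℝ) * A ≤ N := by exact_mod_cast (show 26 * A ≤ N by omega)
    have h2 : 26 * (A : ℝ) * s0 ≤ 26 * A * (q : ℝ) ^ 2 := by
      have h3 : (26 : ℝ) * A * s0 ≤ N * s0 := mul_le_mul_of_nonneg_right h1 (by linarith)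
      linarith
    have hAR : (0 : ℝ) < A := by exact_mod_cast hA0
    exact le_of_mul_le_mul_left h2 (by positivity)
  have hs0 : 0 < s0 := by linarith
  obtain ⟨P, T, hP1, hP2, hPm, hT, hT1, hT2, hP3⟩ := reach_window hs ht (by omega) hA0 (by omega)
    hrq h12 hsq
  have hq1 : 1 ≤ q := by omega
  have hq2 : q ≤ q ^ 2 := by
    rw [pow_two]
    exact Nat.le_mul_of_pos_left q hq1
  have hsm' : Small r P := fun p hp =>
    small_of (q := q) (A := A) (by omega) hA0 (by omega) hrq (by omega) p (by omega)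
  have hPR : (q : ℝ) ^ 2 ≤ P := by exact_mod_cast hP1
  have hqR : (1 : ℝ) ≤ q := by exact_mod_cast hq1
  have hP0 : (0 : ℝ) < P := lt_of_lt_of_le (by positivity) hPR
  have hth : ∀ k ≤ K, 10 * ((k + 2) * (3 + shS k)) ≤ P := by
    intro k hk
    have h1 : (k + 2) * (3 + shS k) ≤ (K + 2) * (3 + shS K) :=
      Nat.mul_le_mul (by omega) (by have := shS_mono hk; omega)
    rw [← hW] at h1
    omega
  have hAP : A * P ≤ r := by
    have h1 : A * P ≤ A * (12 * q ^ 2) := Nat.mul_le_mul_left _ (by omega)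
    have h2 : A * (12 * q ^ 2) = q ^ 2 * (12 * A) := by ring
    omega
  have hKq : 128 * ((K : ℝ) + 2) ≤ 1696 * q := by
    have h1 : K + 2 ≤ q := by omega
    have h2 : (K : ℝ) + 2 ≤ q := by exact_mod_cast h1
    linarith
  obtain ⟨σ, T3, hσ, hlog, hT30, hT3⟩ := main_ind (K := K) hs0 ht (by omega) hsm' hPm hth
    (by rw [← hA]; exact hAP) (by
      rw [div_le_div_iff₀ (by positivity) (by positivity)]
      have h2 : 128 * ((K : ℝ) + 2) * r ≤ 1696 * q * r :=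
        mul_le_mul_of_nonneg_right hKq (by linarith)
      linarith) hT (by
      unfold wl
      rw [ck_zero]
      have : (4 : ℝ) / (2 * (P : ℝ) ^ (0 + 2)) = 2 / (P : ℝ) ^ 2 := by
        rw [div_eq_div_iff (by positivity) (by positivity)]
        ring
      rw [this]
      exact hT1) (by
      unfold wu
      rw [ck_zero]
      have : (9 : ℝ) * 4 / (10 * (P : ℝ) ^ (0 + 2)) = 18 / (5 * (P : ℝ) ^ 2) := by
        rw [div_eq_div_iff (by positivity) (by positivity)]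
        ring
      rw [this]
      exact hT2)
  have hσ0 : 0 < σ := hσ.pos hs0
  have hσe : σ = u * Real.exp (-(2 * T3)) := by
    rw [← Real.exp_log hσ0, hlog, sub_eq_add_neg, Real.exp_add, Real.exp_log hu0]
  have hexp1 : Real.exp (-(2 * T3)) ≤ 1 := by
    rw [Real.exp_le_one_iff]
    linarith
  have hexp2 : 1 - 2 * T3 ≤ Real.exp (-(2 * T3)) := by
    have := Real.add_one_le_exp (-(2 * T3))
    linarith
  refine ⟨σ, hσ, ?_, ?_⟩
  · rw [hσe]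
    exact mul_le_of_le_one_right hu0.le hexp1
  · have h1 : u - σ ≤ 2 * u * T3 := by
      rw [hσe]
      have := mul_le_mul_of_nonneg_left hexp2 hu0.le
      linarith
    refine h1.trans (final_acc (r := r) hV (by omega) (by omega) hu0 (by linarith) hT30 ?_ hT3)
    have h4 : (A : ℝ) = 5 ^ (K + 1) := by rw [hA]; push_cast; ring
    rw [← h4]
    have h5 : (A : ℝ) * (q : ℝ) ^ 2 ≤ A * P := mul_le_mul_of_nonneg_left hPR (Nat.cast_nonneg _)
    linarith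

end Pool.Agent.H932R5
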