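import Mathlib
import Pool.Agent.H932R5.Reach
import Pool.Agent.H932R5.Base
import Pool.Agent.H932R5.Dim

set_option autoImplicit false

/-!
# All phases together
-/

namespace Pool.Agent.H932R5

open MvPolynomial

variable {K : Type*} [Field K] {E n : ℕ}

/-- The ratios needed in the phases. -/
theorem exists_ratio (k : ℕ) : ∃ N : ℝ, 1 ≤ N ∧ ∀ L : ℝ, N ≤ L → ∀ E t : ℕ, t < E →
    ∃ σ, Up (L ^ (E - 1 - t)) σ ∧ σ ≤ L ^ (E + 1 - t) ∧
      Real.sqrt (L ^ (E + 1 - t) / σ) ≤ 1 + 2 / L ^ k ∧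
      1 - 1 / L ^ k ≤ Real.sqrt (σ / L ^ (E + 1 - t)) := by
  obtain ⟨N, hN1, hN⟩ := exists_up k
  refine ⟨N + 2, by linarith, fun L hL E t ht => ?_⟩
  have hL1 : 1 ≤ L := by linarith
  have hL0 : 0 < L := by linarith
  have hs1 : 1 ≤ L ^ (E - 1 - t) := one_le_pow₀ hL1
  have hus : L ^ (E + 1 - t) = L ^ (E - 1 - t) * L ^ 2 := by
    rw [← pow_add]
    congr 1
    omega
  obtain ⟨s, hs⟩ : ∃ s, s = L ^ (E - 1 - t) := ⟨_, rfl⟩
  obtain ⟨u, hu⟩ : ∃ u, u = L ^ (E + 1 - t) := ⟨_, rfl⟩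
  rw [← hs, ← hu] at hus
  rw [← hs] at hs1
  have hLu : L ≤ u := by
    rw [hus]
    nlinarith [mul_le_mul_of_nonneg_right hs1 (show 0 ≤ L ^ 2 by positivity)]
  have hNs : N * s ≤ u := by
    rw [hus, mul_comm]
    refine mul_le_mul_of_nonneg_left ?_ (by linarith)
    nlinarith
  obtain ⟨σ, hσ, hσu, hclose⟩ := hN s u hs1 hNs
  rw [← hs, ← hu]
  have hu0 : 0 < u := by linarith
  have hσ0 : 0 < σ := hσ.pos (by linarith)
  have hkk : 1 / u ^ k ≤ 1 / L ^ k :=
    one_div_le_one_div_of_le (by positivity) (pow_le_pow_left₀ hL0.le hLu k)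
  have hk1 : 1 / L ^ k ≤ 1 := by
    rw [div_le_one (by positivity)]
    exact one_le_pow₀ hL1
  have hk0 : 0 < 1 / L ^ k := by positivity
  refine ⟨σ, hσ, hσu, ?_, ?_⟩
  · have h1 : 1 ≤ u / σ := by
      rw [le_div_iff₀ hσ0, one_mul]
      exact hσu
    have h2 : Real.sqrt (u / σ) ≤ u / σ := by
      rw [Real.sqrt_le_left (by linarith)]
      nlinarith
    refine h2.trans ?_
    rw [div_le_iff₀ hσ0]
    have h3 : (2 : ℝ) / L ^ k = 2 * (1 / L ^ k) := by ring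
    rw [h3]
    have h4 : 1 ≤ σ := by linarith
    nlinarith
  · have h1 : σ / u ≤ 1 := by
      rw [div_le_one hu0]
      exact hσu
    have h2 : σ / u ≤ Real.sqrt (σ / u) := by
      refine Real.le_sqrt_of_sq_le ?_
      have : 0 < σ / u := by positivity
      nlinarith
    refine le_trans ?_ h2
    rw [le_div_iff₀ hu0]
    have h4 : 1 ≤ u := by linarith
    nlinarith

/-- All phases, for emptiness. -/
theorem Full.phases [Infinite K] [CharZero K] {w : Fin n → ℕ} {L μ S c : ℝ}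
    (hrat : ∀ E t : ℕ, t < E → ∃ σ, Up (L ^ (E - 1 - t)) σ ∧ σ ≤ L ^ (E + 1 - t) ∧
      Real.sqrt (L ^ (E + 1 - t) / σ) ≤ μ)
    (hL : 1 ≤ L) (hμ : 1 ≤ μ) (hS : 0 < S)
    (hF : Full K w (Sx (Wt E 0 S L 1) c)) (t : ℕ) (ht : t ≤ E) :
    Full K w (Sx (Wt E t S L (μ ^ t)) c) := by
  induction t with
  | zero =>
    rw [pow_zero]
    exact hF
  | succ t ih =>
    obtain ⟨σ, h1, h2, h3⟩ := hrat E t ht
    refine Full.phase ht hS hL (one_le_pow₀ hμ) h1 h2 ?_ (ih (by omega))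
    rw [pow_succ]
    exact mul_le_mul_of_nonneg_left h3 (by positivity)

/-- All phases, for ranks. -/
theorem Rk.phases [Infinite K] [CharZero K] {w : Fin n → ℕ} {N : ℕ} {L ν S c : ℝ}
    (hrat : ∀ E t : ℕ, t < E → ∃ σ, Up (L ^ (E - 1 - t)) σ ∧ σ ≤ L ^ (E + 1 - t) ∧
      ν ≤ Real.sqrt (σ / L ^ (E + 1 - t)))
    (hL : 1 ≤ L) (hν0 : 0 < ν) (hν : ν ≤ 1) (hS : 0 < S)
    (hF : Rk K w (Sx (Wt E 0 S L 1) c) N) (t : ℕ) (ht : t ≤ E) :
    Rk K w (Sx (Wt E t S L (ν ^ t)) (c + t * (L ^ (E + 1) / S))) N := by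
  induction t with
  | zero =>
    rw [pow_zero]
    simpa using hF
  | succ t ih =>
    obtain ⟨σ, h1, h2, h3⟩ := hrat E t ht
    have h4 := Rk.phase ht hS hL (pow_pos hν0 t) (pow_le_one₀ hν0.le hν)
      (ν' := ν ^ (t + 1)) (by positivity) h1 h2 (by
        rw [pow_succ]
        exact mul_le_mul_of_nonneg_left h3 (by positivity)) (ih (by omega))
    have e : c + (t : ℝ) * (L ^ (E + 1) / S) + L ^ (E + 1) / S =
        c + ((t + 1 : ℕ) : ℝ) * (L ^ (E + 1) / S) := by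
      push_cast
      ring
    rw [e] at h4
    exact h4

theorem sum_Wt_zero (S L : ℝ) (p : Fin (E + 1) →₀ ℕ) :
    ∑ i, Wt E 0 S L 1 i * (p i : ℝ) =
      ((p 0 : ℝ) + L ^ (E + 1) * ((∑ j : Fin E, p j.succ : ℕ) : ℝ)) / S := by
  rw [Fin.sum_univ_succ, Wt_zero]
  have h : ∀ j : Fin E, Wt E 0 S L 1 j.succ * (p j.succ : ℝ) =
      L ^ (E + 1) / S * (p j.succ : ℝ) := by
    intro j
    rw [Wt_succ, if_neg (Nat.not_lt_zero _)]
  simp only [h]
  rw [← Finset.mul_sum, pow_zero]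
  push_cast
  ring

theorem sum_Wt_last (S L μ : ℝ) (p : Fin (E + 1) →₀ ℕ) :
    ∑ i, Wt E E S L μ i * (p i : ℝ) = μ * L ^ E / S * ((Finsupp.degree p : ℕ) : ℝ) := by
  have h : ∀ i, Wt E E S L μ i = μ * L ^ E / S := by
    intro i
    refine Fin.cases ?_ (fun j => ?_) i
    · exact Wt_zero _ _ _ _
    · rw [Wt_succ, if_pos j.2]
  simp only [h]
  rw [← Finset.mul_sum, Finsupp.degree_eq_sum]
  push_cast
  rfl

/-- **Emptiness.** -/
theorem full_main [Infinite K] [CharZero K] {w : Fin n → ℕ} {L μ : ℝ}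
    (hrat : ∀ E t : ℕ, t < E → ∃ σ, Up (L ^ (E - 1 - t)) σ ∧ σ ≤ L ^ (E + 1 - t) ∧
      Real.sqrt (L ^ (E + 1 - t) / σ) ≤ μ)
    (hL : 1 ≤ L) (hμ : 1 ≤ μ) (hn : L ^ (E + 1) = n) {d : ℕ}
    (hd : μ ^ E * L ^ E * d < ((∑ i, w i : ℕ) : ℝ)) : Full K w (Td E d) := by
  obtain ⟨M, hM⟩ : ∃ M, M = ∑ i, w i := ⟨_, rfl⟩
  rw [← hM] at hd
  have hM0 : (0 : ℝ) < M := lt_of_le_of_lt (by positivity) hd
  obtain ⟨S, hS⟩ : ∃ S : ℝ, S = max (μ ^ E * L ^ E * d) (M / 2) := ⟨_, rfl⟩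
  have hS1 : μ ^ E * L ^ E * d ≤ S := by rw [hS]; exact le_max_left _ _
  have hS2 : (M : ℝ) / 2 ≤ S := by rw [hS]; exact le_max_right _ _
  have hSM : S < M := by
    rw [hS]
    exact max_lt hd (by linarith)
  have hS0 : 0 < S := by linarith
  have h0 : Full K w (Sx (Wt E 0 S L 1) 1) := by
    refine (Full.base (K := K) (E := E) w).mono fun p hp => ?_
    rw [mem_Sx, sum_Wt_zero, div_le_one hS0, hn] at hp
    have h1 : (((p 0 + n * ∑ j : Fin E, p j.succ : ℕ)) : ℝ) < M := by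
      push_cast at hp ⊢
      linarith
    have h2 : p 0 + n * ∑ j : Fin E, p j.succ < M := by exact_mod_cast h1
    rw [hM] at h2
    exact h2
  have h1 := Full.phases hrat hL hμ hS0 h0 E le_rfl
  refine h1.mono fun p hp => ?_
  have hp : Finsupp.degree p ≤ d := hp
  rw [mem_Sx, sum_Wt_last]
  have h2 : ((Finsupp.degree p : ℕ) : ℝ) ≤ d := by exact_mod_cast hp
  have h3 : μ ^ E * L ^ E / S * ((Finsupp.degree p : ℕ) : ℝ) ≤ μ ^ E * L ^ E / S * d :=
    mul_le_mul_of_nonneg_left h2 (by positivity)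
  refine h3.trans ?_
  rw [div_mul_eq_mul_div, div_le_one hS0]
  exact hS1

/-- The staircase region. -/
def M0 (E n m : ℕ) : Set (Fin (E + 1) →₀ ℕ) := {p | p 0 + n * ∑ j : Fin E, p j.succ < n * m}

theorem M0_equiv (hn : 0 < n) (m : ℕ) :
    ∃ T : Finset (Fin (E + 1) →₀ ℕ), (↑T : Set (Fin (E + 1) →₀ ℕ)) = M0 E n m ∧
      T.card = n * (m + E).choose (E + 1) := by
  classical
  let f : ℕ × (Fin (E + 1) →₀ ℕ) → (Fin (E + 1) →₀ ℕ) := fun x =>
    Finsupp.cons (x.1 + n * x.2 0) x.2.tail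
  refine ⟨((Finset.range n) ×ˢ (dg E m)).image f, ?_, ?_⟩
  · ext p
    rw [Finset.mem_coe, Finset.mem_image]
    have hdeg : ∀ s : Fin (E + 1) →₀ ℕ, Finsupp.degree s = s 0 + ∑ j : Fin E, s j.succ := by
      intro s
      rw [Finsupp.degree_eq_sum, Fin.sum_univ_succ]
    constructor
    · rintro ⟨⟨a, s⟩, hx, rfl⟩
      rw [Finset.mem_product, Finset.mem_range, mem_dg, hdeg] at hx
      obtain ⟨h1, h2⟩ := hx
      show (f (a, s)) 0 + n * ∑ j : Fin E, (f (a, s)) j.succ < n * m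
      have h3 : (f (a, s)) 0 = a + n * s 0 := Finsupp.cons_zero _ _
      have h4 : ∀ j : Fin E, (f (a, s)) j.succ = s j.succ := fun j => by
        show Finsupp.cons (a + n * s 0) s.tail j.succ = s j.succ
        rw [Finsupp.cons_succ, Finsupp.tail_apply]
      simp only [h3, h4]
      simp only at h1 h2
      have h5 : n * (s 0 + ∑ j : Fin E, s j.succ + 1) ≤ n * m := Nat.mul_le_mul_left _ h2
      have h6 : n * (s 0 + ∑ j : Fin E, s j.succ + 1) =
          n * s 0 + n * (∑ j : Fin E, s j.succ) + n := by ring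
      omega
    · intro hp
      have hp : p 0 + n * ∑ j : Fin E, p j.succ < n * m := hp
      refine ⟨(p 0 % n, Finsupp.cons (p 0 / n) p.tail), ?_, ?_⟩
      · rw [Finset.mem_product, Finset.mem_range, mem_dg, hdeg]
        refine ⟨Nat.mod_lt _ hn, ?_⟩
        simp only [Finsupp.cons_zero, Finsupp.cons_succ, Finsupp.tail_apply]
        have h1 := Nat.mod_add_div (p 0) n
        have h2 : n * (p 0 / n + ∑ j : Fin E, p j.succ) < n * m := by
          rw [Nat.mul_add]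
          omega
        exact Nat.lt_of_mul_lt_mul_left h2
      · show Finsupp.cons (p 0 % n + n * (Finsupp.cons (p 0 / n) p.tail : Fin (E + 1) →₀ ℕ) 0)
          (Finsupp.tail (Finsupp.cons (p 0 / n) p.tail)) = p
        rw [Finsupp.cons_zero, Finsupp.tail_cons, Nat.mod_add_div, Finsupp.cons_tail]
  · rw [Finset.card_image_of_injOn, Finset.card_product, Finset.card_range, card_dg]
    rintro ⟨a, s⟩ hx ⟨a', s'⟩ hx' h
    rw [Finset.mem_coe, Finset.mem_product, Finset.mem_range] at hx hx'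
    simp only at hx hx'
    have h1 : a + n * s 0 = a' + n * s' 0 := by
      have := congrArg (fun q : Fin (E + 1) →₀ ℕ => q 0) h
      simpa [f] using this
    have h2 : s.tail = s'.tail := by
      have := congrArg Finsupp.tail h
      simpa [f] using this
    have h3 : a = a' := by
      have h4 := congrArg (fun z => z % n) h1
      simp only [Nat.add_mul_mod_self_left] at h4
      rwa [Nat.mod_eq_of_lt hx.1, Nat.mod_eq_of_lt hx'.1] at h4
    have h5 : s 0 = s' 0 := by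
      rw [h3] at h1
      have : n * s 0 = n * s' 0 := by omega
      exact Nat.eq_of_mul_eq_mul_left hn this
    rw [Prod.mk.injEq]
    refine ⟨h3, ?_⟩
    rw [← Finsupp.cons_tail s, ← Finsupp.cons_tail s', h2, h5]

/-- **Independence of the conditions.** -/
theorem rk_main [Infinite K] [CharZero K] {m : ℕ} (hm : 0 < m) {L ν : ℝ}
    (hrat : ∀ E t : ℕ, t < E → ∃ σ, Up (L ^ (E - 1 - t)) σ ∧ σ ≤ L ^ (E + 1 - t) ∧
      ν ≤ Real.sqrt (σ / L ^ (E + 1 - t)))
    (hL : 1 ≤ L) (hν0 : 0 < ν) (hν : ν ≤ 1) (hn : L ^ (E + 1) = n) {d : ℕ}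
    (hd : L * (m + E) ≤ ν ^ E * d) :
    Rk K (fun _ : Fin n => m) (Td E d) (n * (m + E).choose (E + 1)) := by
  have hL0 : 0 < L := by linarith
  have hnR : (0 : ℝ) < n := by rw [← hn]; positivity
  have hn0 : 0 < n := by exact_mod_cast hnR
  have hmR : (0 : ℝ) < m := by exact_mod_cast hm
  obtain ⟨S, hS⟩ : ∃ S : ℝ, S = n * m := ⟨_, rfl⟩
  have hS0 : 0 < S := by rw [hS]; positivity
  have hsum : ∑ _i : Fin n, m = n * m := by
    rw [Finset.sum_const, Finset.card_univ, Fintype.card_fin, smul_eq_mul]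
  have h0 : Rk K (fun _ : Fin n => m) (Sx (Wt E 0 S L 1) 1) (n * (m + E).choose (E + 1)) := by
    obtain ⟨T, hT, hTc⟩ := M0_equiv (E := E) hn0 m
    have h1 := Full.base (K := K) (E := E) (fun _ : Fin n => m)
    rw [hsum] at h1
    have h1 : Full K (fun _ : Fin n => m) (M0 E n m) := h1
    rw [← hT] at h1
    have h2 := h1.rk
    rw [hTc, hT] at h2
    refine h2.mono fun p hp => ?_
    have hp : p 0 + n * ∑ j : Fin E, p j.succ < n * m := hp
    rw [mem_Sx, sum_Wt_zero, div_le_one hS0, hn, hS]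
    exact_mod_cast hp.le
  have h1 := Rk.phases hrat hL hν0 hν hS0 h0 E le_rfl
  refine h1.mono fun p hp => ?_
  rw [mem_Sx, sum_Wt_last, hn] at hp
  show Finsupp.degree p ≤ d
  have hLE : L ^ E * L = n := by rw [← hn, pow_succ]
  have h2 : ν ^ E * L ^ E * ((Finsupp.degree p : ℕ) : ℝ) ≤ n * (m + E) := by
    have h3 : (1 + (E : ℝ) * (n / S)) * S = n * (m + E) := by
      rw [hS]
      field_simp
    rw [div_mul_eq_mul_div, div_le_iff₀ hS0, h3] at hp
    exact hp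
  have h4 : L ^ E * (ν ^ E * ((Finsupp.degree p : ℕ) : ℝ)) ≤ L ^ E * (ν ^ E * d) := by
    calc L ^ E * (ν ^ E * ((Finsupp.degree p : ℕ) : ℝ)) =
        ν ^ E * L ^ E * ((Finsupp.degree p : ℕ) : ℝ) := by ring
      _ ≤ n * (m + E) := h2
      _ = L ^ E * (L * (m + E)) := by rw [← hLE]; ring
      _ ≤ L ^ E * (ν ^ E * d) := mul_le_mul_of_nonneg_left hd (by positivity)
  have h5 := le_of_mul_le_mul_left h4 (by positivity)
  have h6 := le_of_mul_le_mul_left h5 (by positivity)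
  exact_mod_cast h6

end Pool.Agent.H932R5
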