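import Mathlib
import Pool.Agent.H932R5.Points

set_option autoImplicit false

/-!
# Fat points in projective space: the two-sided theorem
-/

namespace Pool.Agent.H932R5

open MvPolynomial

variable {K : Type*} [Field K] {E n : ℕ}

theorem pos_root {n E : ℕ} (hn : 0 < n) :
    0 < (n : ℝ) ^ ((1 : ℝ) / (E + 1)) ∧ ((n : ℝ) ^ ((1 : ℝ) / (E + 1))) ^ (E + 1) = n ∧
      (n : ℝ) ^ ((E : ℝ) / (E + 1)) = ((n : ℝ) ^ ((1 : ℝ) / (E + 1))) ^ E := by
  have hn0 : (0 : ℝ) < n := by exact_mod_cast hn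
  have hE : (E : ℝ) + 1 ≠ 0 := by positivity
  refine ⟨Real.rpow_pos_of_pos hn0 _, ?_, ?_⟩
  · rw [← Real.rpow_natCast, ← Real.rpow_mul hn0.le]
    push_cast
    rw [one_div, inv_mul_cancel₀ hE, Real.rpow_one]
  · rw [← Real.rpow_natCast, ← Real.rpow_mul hn0.le]
    congr 1
    ring

/-- The exact condition implies the approximate one. -/
theorem exact_cond {E q n M d : ℕ} {L μ : ℝ} (hL1 : 1 ≤ L) (hL : L ^ (E + 1) = n)
    (hn : 2 ^ (E + 2) ≤ n) (hμ : 1 ≤ μ)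
    (hμE : μ ^ E < 1 + 1 / (n : ℝ) ^ ((E + 1) * q + q + 2))
    (hM : M ≤ n ^ q) (h : n ^ E * d ^ (E + 1) < M ^ (E + 1)) : μ ^ E * L ^ E * d < M := by
  have hL0 : 0 < L := by linarith
  have hM0 : 0 < M := by
    rcases Nat.eq_zero_or_pos M with h0 | h0
    · rw [h0, zero_pow (by omega)] at h
      omega
    · exact h0
  have hMR : (0 : ℝ) < M := by exact_mod_cast hM0
  have hn0 : (0 : ℝ) < n := by rw [← hL]; positivity
  have hn1 : (1 : ℝ) ≤ n := by rw [← hL]; exact one_le_pow₀ hL1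
  refine lt_of_pow_lt_pow_left₀ (E + 1) hMR.le ?_
  obtain ⟨y, hy⟩ : ∃ y : ℝ, y = 1 / (n : ℝ) ^ ((E + 1) * q + q + 2) := ⟨_, rfl⟩
  rw [← hy] at hμE
  have hy0 : 0 < y := by rw [hy]; positivity
  have hy1 : y ≤ 1 := by
    rw [hy, div_le_one (by positivity)]
    exact one_le_pow₀ hn1
  have hpow : ∀ (x : ℝ) (e : ℕ), 0 ≤ x → x ≤ 1 → (1 + x) ^ e ≤ 1 + 2 ^ e * x := by
    intro x e hx0 hx1
    have hs : (1 + x) ^ e ≤ 1 + (2 ^ e - 1) * x := by
      induction e with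
      | zero => simp
      | succ e ih =>
        rw [pow_succ]
        have h1 : (1 + x) ^ e * (1 + x) ≤ (1 + (2 ^ e - 1) * x) * (1 + x) :=
          mul_le_mul_of_nonneg_right ih (by linarith)
        refine h1.trans ?_
        have h2 : (1 : ℝ) ≤ 2 ^ e := one_le_pow₀ (by norm_num)
        have h3 : (2 : ℝ) ^ (e + 1) = 2 * 2 ^ e := by ring
        rw [h3]
        have h4 : (2 ^ e - 1) * x * x ≤ (2 ^ e - 1) * x * 1 :=
          mul_le_mul_of_nonneg_left hx1 (mul_nonneg (by linarith) hx0)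
        nlinarith
    have h5 : (0 : ℝ) < 2 ^ e := by positivity
    nlinarith
  have h1 : (μ ^ E) ^ (E + 1) ≤ 1 + 2 ^ (E + 1) * y :=
    (pow_le_pow_left₀ (by positivity) hμE.le _).trans (hpow y (E + 1) hy0.le hy1)
  have h2 : (L ^ E * d) ^ (E + 1) ≤ (M : ℝ) ^ (E + 1) - 1 := by
    have e1 : (L ^ E * (d : ℝ)) ^ (E + 1) = (n : ℝ) ^ E * (d : ℝ) ^ (E + 1) := by
      rw [mul_pow, ← pow_mul, mul_comm E (E + 1), pow_mul, hL]
    rw [e1]
    have h3 : ((n ^ E * d ^ (E + 1) + 1 : ℕ) : ℝ) ≤ ((M ^ (E + 1) : ℕ) : ℝ) := by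
      exact_mod_cast h
    push_cast at h3
    linarith
  have e2 : (μ ^ E * L ^ E * (d : ℝ)) ^ (E + 1) =
      (μ ^ E) ^ (E + 1) * (L ^ E * (d : ℝ)) ^ (E + 1) := by
    rw [mul_assoc, mul_pow]
  rw [e2]
  obtain ⟨B, hB⟩ : ∃ B : ℝ, B = (M : ℝ) ^ (E + 1) := ⟨_, rfl⟩
  rw [← hB] at h2 ⊢
  have hMn : (M : ℝ) ≤ (n : ℝ) ^ q := by exact_mod_cast hM
  have hBn : B ≤ (n : ℝ) ^ ((E + 1) * q) := by
    rw [hB, mul_comm (E + 1) q, pow_mul]
    exact pow_le_pow_left₀ hMR.le hMn _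
  have hB1 : 1 ≤ B := by
    rw [hB]
    exact one_le_pow₀ (by exact_mod_cast hM0)
  have hyB : 2 ^ (E + 1) * y * B ≤ 1 / 2 := by
    have h3 : y * (n : ℝ) ^ ((E + 1) * q) = 1 / (n : ℝ) ^ (q + 2) := by
      rw [hy, show (E + 1) * q + q + 2 = (E + 1) * q + (q + 2) by ring, pow_add]
      field_simp
    have h4 : 1 / (n : ℝ) ^ (q + 2) ≤ 1 / n := by
      refine one_div_le_one_div_of_le hn0 ?_
      rw [pow_succ]
      exact le_mul_of_one_le_left hn0.le (one_le_pow₀ hn1)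
    have h5 : y * B ≤ 1 / n := by
      calc y * B ≤ y * (n : ℝ) ^ ((E + 1) * q) := mul_le_mul_of_nonneg_left hBn hy0.le
        _ = 1 / (n : ℝ) ^ (q + 2) := h3
        _ ≤ 1 / n := h4
    have h6 : (2 : ℝ) ^ (E + 2) ≤ n := by exact_mod_cast hn
    have h7 : (2 : ℝ) ^ (E + 1) * (1 / n) ≤ 1 / 2 := by
      rw [mul_one_div, div_le_div_iff₀ hn0 (by norm_num)]
      have h8 : (2 : ℝ) ^ (E + 2) = 2 ^ (E + 1) * 2 := by ring
      linarith
    calc 2 ^ (E + 1) * y * B = 2 ^ (E + 1) * (y * B) := by ring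
      _ ≤ 2 ^ (E + 1) * (1 / n) := mul_le_mul_of_nonneg_left h5 (by positivity)
      _ ≤ 1 / 2 := h7
  have h9 : (μ ^ E) ^ (E + 1) * (L ^ E * (d : ℝ)) ^ (E + 1) ≤
      (1 + 2 ^ (E + 1) * y) * (B - 1) :=
    mul_le_mul h1 h2 (by positivity) (by positivity)
  refine lt_of_le_of_lt h9 ?_
  have h10 : 0 < 2 ^ (E + 1) * y := by positivity
  nlinarith

/-- The degrees in which there is no form. -/
def Low (E q n : ℕ) (w : Fin n → ℕ) (d : ℕ) : Prop :=
  (1 + 1 / (n : ℝ) ^ q) * ((n : ℝ) ^ ((E : ℝ) / (E + 1)) * d) ≤ ∑ i, (w i : ℝ) ∨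
  (∑ i, w i ≤ n ^ q ∧ n ^ E * d ^ (E + 1) < (∑ i, w i) ^ (E + 1))

/-- The degrees in which the conditions are independent. -/
def High (E q n : ℕ) (w : Fin n → ℕ) (d : ℕ) : Prop :=
  ∀ i, (1 + 1 / (n : ℝ) ^ q) * ((n : ℝ) ^ ((1 : ℝ) / (E + 1)) * ((w i : ℝ) + E)) ≤ d

theorem EmptyAt.bot {w : Fin n → ℕ} {P : Fin n → Fin (E + 1) → K} {d : ℕ}
    (h : EmptyAt w P d) : Vd d w P = ⊥ := by
  rw [eq_bot_iff]
  intro F hF
  rw [mem_Vd] at hF
  rw [Submodule.mem_bot]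
  refine deh_inj hF.1 (h _ hF.2 ?_)
  exact mem_mspan.1 (deh_mem hF.1)

/-- **The two-sided theorem.** -/
theorem final_thm (E q : ℕ) : ∃ N : ℕ, 1 ≤ N ∧ ∀ (K : Type) [Field K] [CharZero K] (n : ℕ),
    N ≤ n → ∀ w : Fin n → ℕ, ∃ F : MvPolynomial (Fin n × Fin (E + 1)) K, F ≠ 0 ∧
      ∀ P : Fin n → Fin (E + 1) → K,
        eval (fun p : Fin n × Fin (E + 1) => P p.1 p.2) F ≠ 0 → ∀ d : ℕ,
          (0 < ∑ i, w i → Low E q n w d → Vd d w P = ⊥) ∧
          (Low E q n w d ∨ High E q n w d → (Module.finrank K ↥(Vd d w P) : ℤ) =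
            max 0 (((d + E + 1).choose (E + 1) : ℤ) -
              ((∑ i, (w i + E).choose (E + 1) : ℕ) : ℤ))) := by
  classical
  obtain ⟨N, hN1, hN⟩ := exists_consts E ((E + 1) * q + q + 2)
  have h2E : 0 < 2 ^ (E + 2) := by positivity
  refine ⟨N + 2 ^ (E + 2), by omega, fun K _ _ n hn w => ?_⟩
  have hn0 : 0 < n := by omega
  have hnR : (0 : ℝ) < n := by exact_mod_cast hn0
  obtain ⟨hL0, hL, hLE⟩ := pos_root (E := E) hn0
  obtain ⟨L, hLd⟩ : ∃ L : ℝ, L = (n : ℝ) ^ ((1 : ℝ) / (E + 1)) := ⟨_, rfl⟩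
  rw [← hLd] at hL0 hL hLE
  obtain ⟨hL1, μ, ν, hμ1, hν0, hν1, hμE, hνE, hr1, hr2⟩ := hN n (by omega) L hL0 hL
  have hn1 : (1 : ℝ) ≤ n := by exact_mod_cast hn0
  have hqQ : 1 / (n : ℝ) ^ ((E + 1) * q + q + 2) ≤ 1 / (n : ℝ) ^ q := by
    refine one_div_le_one_div_of_le (by positivity) (pow_le_pow_right₀ hn1 ?_)
    have : 0 ≤ (E + 1) * q := Nat.zero_le _
    omega
  obtain ⟨M, hM⟩ : ∃ M, M = ∑ i, w i := ⟨_, rfl⟩
  have hMR : (M : ℝ) = ∑ i, (w i : ℝ) := by rw [hM]; push_cast; rfl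
  -- emptiness
  have hempty : ∀ d : ℕ, ∃ F : MvPolynomial (Fin n × Fin (E + 1)) K, F ≠ 0 ∧
      ∀ P : Fin n → Fin (E + 1) → K,
        eval (fun p : Fin n × Fin (E + 1) => P p.1 p.2) F ≠ 0 →
        μ ^ E * L ^ E * d < M → EmptyAt w P d := by
    intro d
    by_cases h : μ ^ E * L ^ E * d < M
    · obtain ⟨F, hF, hF'⟩ := open_of_full (K := K) (w := w) (E := E) (d := d)
        (full_main hr1 hL1 hμ1 hL (by rw [← hM]; exact h))
      exact ⟨F, hF, fun P hP _ => hF' P hP⟩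
    · exact ⟨1, one_ne_zero, fun P _ h' => absurd h' h⟩
  choose Fe hFe hFe' using hempty
  -- independence
  obtain ⟨m, hm⟩ : ∃ m, m = Finset.univ.sup w := ⟨_, rfl⟩
  have hwm : ∀ i, w i ≤ m := fun i => by rw [hm]; exact Finset.le_sup (Finset.mem_univ i)
  have hind : ∃ F : MvPolynomial (Fin n × Fin (E + 1)) K, F ≠ 0 ∧
      ∀ P : Fin n → Fin (E + 1) → K,
        eval (fun p : Fin n × Fin (E + 1) => P p.1 p.2) F ≠ 0 →
        ∀ d : ℕ, (0 < m → L * (m + E) ≤ ν ^ E * d) → SurjAt w P d := by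
    rcases Nat.eq_zero_or_pos m with hm0 | hm0
    · refine ⟨1, one_ne_zero, fun P _ d _ => SurjAt.of_zero (fun i => ?_) P d⟩
      have := hwm i
      omega
    · have hex : ∃ d : ℕ, L * (m + E) ≤ ν ^ E * d := by
        obtain ⟨d, hd⟩ := exists_nat_ge (L * (m + E) / ν ^ E)
        refine ⟨d, ?_⟩
        rw [div_le_iff₀ (by positivity)] at hd
        linarith
      obtain ⟨d0, hd0, hmin⟩ : ∃ d0 : ℕ, L * (m + E) ≤ ν ^ E * d0 ∧
          ∀ d : ℕ, L * (m + E) ≤ ν ^ E * d → d0 ≤ d :=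
        ⟨Nat.find hex, Nat.find_spec hex, fun d hd => Nat.find_min' hex hd⟩
      obtain ⟨F, hF, hF'⟩ := open_of_rk (K := K) (n := n) (E := E) (m := m) (d := d0)
        (rk_main hm0 hr2 hL1 hν0 hν1 hL hd0)
      refine ⟨F, hF, fun P hP d hd => ?_⟩
      exact ((hF' P hP).mono_d (hmin d (hd hm0))).mono_w hwm
  obtain ⟨Fi, hFi, hFi'⟩ := hind
  refine ⟨Fi * ∏ d ∈ Finset.range (M + 1), Fe d,
    mul_ne_zero hFi (Finset.prod_ne_zero_iff.2 fun d _ => hFe d), fun P hP d => ?_⟩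
  rw [map_mul, map_prod] at hP
  have hP1 := left_ne_zero_of_mul hP
  have hP2 := Finset.prod_ne_zero_iff.1 (right_ne_zero_of_mul hP)
  have hEmp0 : μ ^ E * L ^ E * d < M → EmptyAt w P d := by
    intro h
    have hdM : d < M + 1 := by
      have h1 : (1 : ℝ) ≤ μ ^ E * L ^ E := one_le_mul_of_one_le_of_one_le
        (one_le_pow₀ hμ1) (one_le_pow₀ hL1)
      have h2 : (d : ℝ) ≤ μ ^ E * L ^ E * d := le_mul_of_one_le_left (Nat.cast_nonneg d) h1
      have h3 : (d : ℝ) < M := lt_of_le_of_lt h2 h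
      have h4 : d < M := by exact_mod_cast h3
      omega
    exact hFe' d P (hP2 d (Finset.mem_range.2 hdM)) h
  have hEmp : EmptyAt w P d → (Module.finrank K ↥(Vd d w P) : ℤ) =
      max 0 (((d + E + 1).choose (E + 1) : ℤ) -
        ((∑ i, (w i + E).choose (E + 1) : ℕ) : ℤ)) := by
    intro h
    have h1 := h.finrank
    have h2 := finrank_ge (K := K) d w P
    rw [h1] at h2 ⊢
    omega
  have hSurj : (0 < m → L * (m + E) ≤ ν ^ E * d) → (Module.finrank K ↥(Vd d w P) : ℤ) =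
      max 0 (((d + E + 1).choose (E + 1) : ℤ) -
        ((∑ i, (w i + E).choose (E + 1) : ℕ) : ℤ)) := by
    intro h
    have h1 := (hFi' P hP1 d h).finrank
    omega
  have hLow : 0 < M → Low E q n w d → EmptyAt w P d := by
    intro hM0 hd
    rcases hd with hd | hd
    · refine hEmp0 ?_
      rw [hLE, ← hMR] at hd
      rcases Nat.eq_zero_or_pos d with h0 | h0
      · rw [h0, Nat.cast_zero, mul_zero]
        exact_mod_cast hM0
      · have hdR : (0 : ℝ) < d := by exact_mod_cast h0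
        have h1 : μ ^ E * (L ^ E * d) < (1 + 1 / (n : ℝ) ^ q) * (L ^ E * d) :=
          mul_lt_mul_of_pos_right (by linarith) (by positivity)
        linarith
    · refine hEmp0 ?_
      rw [← hM] at hd
      exact exact_cond hL1 hL (by omega) hμ1 hμE hd.1 hd.2
  refine ⟨fun h1 h2 => (hLow (by rw [hM]; exact h1) h2).bot, fun hd => ?_⟩
  rcases Nat.eq_zero_or_pos m with hm0 | hm0
  · exact hSurj (fun h => absurd h (by omega))
  have hM0 : 0 < M := by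
    obtain ⟨i, hi⟩ : ∃ i, 0 < w i := by
      by_contra hcon
      push Not at hcon
      have : m ≤ 0 := by
        rw [hm]
        exact Finset.sup_le fun i _ => hcon i
      omega
    rw [hM]
    exact lt_of_lt_of_le hi (Finset.single_le_sum (f := w) (fun _ _ => Nat.zero_le _)
      (Finset.mem_univ i))
  rcases hd with hd | hd
  · exact hEmp (hLow hM0 hd)
  · refine hSurj fun _ => ?_
    obtain ⟨i, _, hi⟩ := Finset.exists_mem_eq_sup Finset.univ ⟨⟨0, hn0⟩, Finset.mem_univ _⟩ w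
    have h1 := hd i
    rw [← hi, ← hm, ← hLd] at h1
    have h2 : 0 ≤ L * ((m : ℝ) + E) := by positivity
    have h3 : (1 : ℝ) ≤ (1 + 1 / (n : ℝ) ^ q) * ν ^ E := by
      refine hνE.trans (mul_le_mul_of_nonneg_right ?_ (by positivity))
      linarith
    have h4 : L * ((m : ℝ) + E) * 1 ≤ L * ((m : ℝ) + E) * ((1 + 1 / (n : ℝ) ^ q) * ν ^ E) :=
      mul_le_mul_of_nonneg_left h3 h2
    have h5 : (1 + 1 / (n : ℝ) ^ q) * (L * ((m : ℝ) + E)) * ν ^ E ≤ d * ν ^ E :=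
      mul_le_mul_of_nonneg_right h1 (by positivity)
    linarith

end Pool.Agent.H932R5
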